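import Pool.Agent.MP_57341d_ag.H73W.Cur
import Pool.Agent.MP_57341d_ag.HW.Tor
import Pool.Agent.MP_57341d_ag.H42.Eig

attribute [-instance] ContinuousSemilinearMapClass.toSemilinearMapClass Unique.instInhabited
  CoalgHomClass.toSemilinearMapClass SemilinearIsometryClass.toSemilinearMapClass
  RingHomClass.toLinearMapClassRat instNonUnitalAlgHomClassOfNonUnitalAlgEquivClass
  SetLike.GradeZero.instCommSemiring MonTypeEquivalenceMon.monMonoid
  NonUnitalNormedRing.toNormedAddCommGroup BialgHomClass.toAlgHomClass Nontrivial.to_nonempty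
  NonUnitalAlgHomClass.instSemilinearMapClassOfNonUnitalAlgSemiHomClassToMonoidHomRingHom
  AlgHomClass.linearMapClass Group.IsPerfect.subsingleton_of_isMulCommutative
  instDiscreteTopologyOfAlexandrovDiscreteOfT1Space instCoeHTCOfCoeHeadOfCoeOTC
  instCoeHTCTOfCoeTailOfCoeHTC SemilinearEquivClass.instSemilinearMapClass Zero.instNonempty
  MonoidHomClass.toMulHomClass SetLike.GradeZero.instSemiring
  NonUnitalAlgHomClass.toNonUnitalRingHomClass bot_nonempty
  MulSemiringActionSemiHomClass.toDistribMulActionSemiHomClass LieAdmissibleAlgebra.toModule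
  instInhabitedOfMonad BialgHomClass.toMonoidHomClass Fintype.decidableForallFintype instCoeTCOfCoe
  NonarchimedeanRing.toIsTopologicalRing RightPreLieAlgebra.toModule AddTorsor.nonempty
  TestFunctionClass.toDFunLike LeftPreLieAlgebra.toModule instIsRightCancelAddOfAddRightReflectLE
  ContDiffMapSupportedInClass.toDFunLike One.instNonempty AlgEquivClass.toAlgHomClass
  IsTopologicalTorsor.toContinuousSMul Torsor.nonempty DiscreteUniformity.instDiscreteTopology
  ConnectedSpace.toNonempty CentroidHomClass.toAddMonoidHomClass top_nonempty instIsBotZeroClass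
  NonarchimedeanAddGroup.toIsTopologicalAddGroup CategoryTheory.IsConnected.is_nonempty
  Unique.instSubsingleton instIsEmptyForallOfNonempty FunLike.toDecidableEq
  ValuationClass.toMonoidWithZeroHomClass IrreducibleSpace.toNonempty

/-! Periods of abelian varieties of a half system type are values of the Beta function. -/

open Complex Filter Topology MvPolynomial Module GPC73 GPC42

namespace GPCJ

variable {g N m p : ℕ} {A : AbVar g N} {ι : Type} [Fintype ι]

/-! ### Block CJ -/

theorem cj_an {τ : Type} {R : τ → ℂ → ℂ} (hR : ∀ i, AnalyticAt ℂ (R i) 0)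
    (f : MvPolynomial τ ℂ) : AnalyticAt ℂ (fun x => eval (fun i => R i x) f) 0 := by
  induction f using MvPolynomial.induction_on with
  | C a => simpa only [eval_C] using analyticAt_const
  | add f f' h h' => simpa only [map_add] using h.fun_add h'
  | mul_X f i h => simpa only [map_mul, eval_X] using h.fun_mul (hR i)

theorem cj_iter {τ : Type} [Finite τ] {R : τ → ℂ → ℂ} (hR : ∀ i, AnalyticAt ℂ (R i) 0)
    (d : τ → MvPolynomial τ ℂ)
    (h : ∀ i, ∀ᶠ x in 𝓝 0, deriv (R i) x = eval (fun i => R i x) (d i)) (n : ℕ)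
    (f : MvPolynomial τ ℂ) : iteratedDeriv n (fun x => eval (fun i => R i x) f) 0 =
      eval (fun i => R i 0) ((mkDerivation ℂ d)^[n] f) := by
  have key : ∀ᶠ x in 𝓝 (0 : ℂ), ∀ f : MvPolynomial τ ℂ,
      HasDerivAt (fun x => eval (fun i => R i x) f)
        (eval (fun i => R i x) (mkDerivation ℂ d f)) x := by
    filter_upwards [eventually_all.2 h, eventually_all.2 fun i => (hR i).eventually_analyticAt]
      with x h1 h2 f
    induction f using MvPolynomial.induction_on with
    | C a => simpa only [eval_C, derivation_C, map_zero] using hasDerivAt_const x a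
    | add f f' h h' => simpa only [map_add] using h.fun_add h'
    | mul_X f i h =>
      have h3 := h.fun_mul (h1 i ▸ (h2 i).differentiableAt.hasDerivAt)
      simp only [map_mul, eval_X, Derivation.leibniz, mkDerivation_X, smul_eq_mul, map_add]
      exact h3.congr_deriv (by ring)
  induction n generalizing f with
  | zero => rfl
  | succ n ih =>
    rw [iteratedDeriv_succ', Function.iterate_succ_apply, ← ih]
    exact EventuallyEq.iteratedDeriv_eq n (key.mono fun x hx => (hx f).deriv)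

theorem cj_map {τ : Type} (d : τ → MvPolynomial τ ℂ) (σ : ℂ →+* ℂ) (n : ℕ)
    (f : MvPolynomial τ ℂ) : map σ ((mkDerivation ℂ d)^[n] f) =
      (mkDerivation ℂ fun i => map σ (d i))^[n] (map σ f) := by
  have key : ∀ f : MvPolynomial τ ℂ,
      map σ (mkDerivation ℂ d f) = mkDerivation ℂ (fun i => map σ (d i)) (map σ f) := by
    intro f
    induction f using MvPolynomial.induction_on with
    | C a => simp only [map_C, derivation_C, map_zero]
    | add f f' h h' => simp only [map_add, h, h']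
    | mul_X f i h =>
      simp only [map_mul, map_X, Derivation.leibniz, mkDerivation_X, smul_eq_mul, map_add, h]
  induction n generalizing f with
  | zero => rfl
  | succ n ih => rw [Function.iterate_succ_apply, Function.iterate_succ_apply, ih, key]

/-- With `D = mkDerivation ℂ d`, `D' = mkDerivation ℂ (map σ ∘ d)`: `map σ (D f) = D' (map σ f)`,
the derivative of `eval R f` is `eval R (D f)` near `0`; so all iterated derivatives of
`eval R' (map σ H)` vanish at `0`. -/
theorem cj_jet {τ : Type} {R R' : τ → ℂ → ℂ} (hR : ∀ i, AnalyticAt ℂ (R i) 0)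
    (hR' : ∀ i, AnalyticAt ℂ (R' i) 0) [Finite τ] (d : τ → MvPolynomial τ ℂ) (σ : ℂ →ₐ[Qb] ℂ)
    (h : ∀ i, ∀ᶠ x in 𝓝 0, deriv (R i) x = eval (fun i => R i x) (d i))
    (h' : ∀ i, ∀ᶠ x in 𝓝 0, deriv (R' i) x = eval (fun i => R' i x) (map (σ : ℂ →+* ℂ) (d i)))
    (h0 : ∀ i, σ (R i 0) = R' i 0) {H : MvPolynomial τ ℂ}
    (hH : ∀ᶠ x in 𝓝 0, eval (fun i => R i x) H = 0) :
    ∀ᶠ x in 𝓝 0, eval (fun i => R' i x) (map (σ : ℂ →+* ℂ) H) = 0 := by
  refine analyticOrderAt_eq_top.1 (ENat.eq_top_iff_forall_ge.2 fun n => ?_)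
  refine (natCast_le_analyticOrderAt_iff_iteratedDeriv_eq_zero (cj_an hR' _)).2 fun k _ => ?_
  have h1 : eval (fun i => R i 0) ((mkDerivation ℂ d)^[k] H) = 0 := by
    rw [← cj_iter hR d h, EventuallyEq.iteratedDeriv_eq k (g := fun _ => 0) hH]
    simp
  have h2 := map_eval (σ : ℂ →+* ℂ) (fun i => R i 0) ((mkDerivation ℂ d)^[k] H)
  rw [h1, map_zero, cj_map, show ((σ : ℂ →+* ℂ) ∘ fun i => R i 0) = fun i => R' i 0 from
    funext h0] at h2
  rw [cj_iter hR' _ h', ← h2]

/-- As `Gx.lift_pt`: `exists_eqs`, `bx_none`, `map_sigma`. -/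
theorem cj_pt {G : Gx A m} {x : Fin g → ℂ} (hG : G.Arith 0 x) (σ : ℂ →ₐ[Qb] ℂ) {y : Fin g → ℂ}
    (hy : y ∈ G.Om) : ∃ y' ∈ G.Om, ∀ i, σ (G.bx i y) = G.bx i y' := by
  obtain ⟨s, hs1, hs2⟩ := exists_eqs A G.k
  obtain ⟨w, hw, hx⟩ := hs2 (fun i => σ (xc A G.k y i))
    (by rw [xc, div_self hy.1, map_one]) fun q hq => by
      rw [← comp_aeval_apply _ σ, hs1 q hq y hy.1, map_zero]
  have h2 := map_eval (σ : ℂ →+* ℂ) (xc A G.k y) G.q
  rw [map_sigma σ hG.q, show (σ : ℂ →+* ℂ) ∘ xc A G.k y = xc A G.k w from hx.symm] at h2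
  have h3 : σ (G.bx none y) * eval (xc A G.k w) G.q = 1 := by
    rw [← h2, ← map_one σ, ← G.bx_none hy, map_mul]
    rfl
  have h4 : eval (xc A G.k w) G.q ≠ 0 := right_ne_zero_of_mul_eq_one h3
  have hw' : w ∈ G.Om := by
    refine ⟨hw, fun h => h4 ?_⟩
    exact (G.gx_ev G.hq w).trans (div_eq_zero_iff.2 (Or.inl h))
  refine ⟨w, hw', fun i => ?_⟩
  cases i with
  | some i => exact (congrFun hx i).symm
  | none => exact mul_right_cancel₀ h4 (h3.trans (G.bx_none hw').symm)

theorem rank_one {κ : Type} {u v ξ : κ → ℂ} {k : κ} (hu : ∃ i, u i ≠ 0) (hv : ∃ i, v i ≠ 0)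
    (hk : ξ k = 1) (h : ∀ i j, u i * v j + v i * u j = 2 * ξ i * ξ j * (u k * v k)) (i : κ) :
    u i = u k * ξ i := by
  have hv' : v k ≠ 0 := by
    intro h0
    obtain ⟨a, ha⟩ := hu
    obtain ⟨b, hb⟩ := hv
    have h1 : v a = 0 := (mul_eq_zero.1 (show u a * v a = 0 by
      linear_combination h a a / 2 + ξ a ^ 2 * u k * h0)).resolve_left ha
    refine mul_ne_zero ha hb ?_
    linear_combination h a b + 2 * ξ a * ξ b * u k * h0 - u b * h1
  have h1 := h i k
  rw [hk] at h1
  have h2 : (u i - u k * ξ i) ^ 2 * v k = 0 := by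
    linear_combination u i * h1 - u k / 2 * h i i
  exact sub_eq_zero.1 (pow_eq_zero_iff two_ne_zero |>.1 ((mul_eq_zero.1 h2).resolve_right hv'))

/-! ### Block LAT -/

/-- Signs. -/
noncomputable def latS (ε : Bool) : ℂ := if ε then 1 else -1

/-- The functions `x`, `1 / y` and the chart functions along the two sheets. -/
noncomputable def latR (G : Gx A m) (p : ℕ) (t : ι → ℕ) (c : ι → Fin g → ℂ) (y : Fin g → ℂ) :
    Bool ⊕ Bool × Option (Fin (N + 1)) → ℂ → ℂ
  | .inl true => fun x => x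
  | .inl false => iy p
  | .inr q => fun x => G.bx q.2 (latS q.1 • zz p t c x + y)

/-- Their derivatives. -/
noncomputable def latD (G : Gx A m) (p : ℕ) (t : ι → ℕ) (c : ι → Fin g → ℂ) :
    Bool ⊕ Bool × Option (Fin (N + 1)) → MvPolynomial (Bool ⊕ Bool × Option (Fin (N + 1))) ℂ
  | .inl true => 1
  | .inl false => C (p / 2 : ℂ) * X (.inl true) ^ (p - 1) * X (.inl false) ^ 3
  | .inr q => ∑ j, C (latS q.1) * (∑ l, X (.inl true) ^ (t l - 1) * X (.inl false) * C (c l j)) *
      rename (fun i => .inr (q.1, i)) (G.bd j q.2)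

theorem lat_zero (t : ι → ℕ) (c : ι → Fin g → ℂ) : zz p t c 0 = 0 := by
  simp only [zz, UU, prim_zero, zero_smul, Finset.sum_const_zero]

theorem lat_an (hp : p ≠ 0) (t : ι → ℕ) (c : ι → Fin g → ℂ) :
    AnalyticOnNhd ℂ (zz p t c) (Sd p) := fun x hx =>
  Finset.analyticAt_fun_sum _ fun i _ => (U_an hp (t i) x hx).smul analyticAt_const

theorem lat_der (G : Gx A m) (hp : p ≠ 0) (t : ι → ℕ) (c : ι → Fin g → ℂ) {y : Fin g → ℂ}
    (hy : y ∈ G.Om) (i : Bool ⊕ Bool × Option (Fin (N + 1))) :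
    AnalyticAt ℂ (latR G p t c y i) 0 ∧ ∀ᶠ x in 𝓝 0,
      deriv (latR G p t c y i) x = eval (fun i => latR G p t c y i x) (latD G p t c i) := by
  have h0 : (0 : ℂ) ∈ Sd p := sd_ball hp (by simp)
  have hn := (sd_open p).mem_nhds h0
  rcases i with (_ | _) | q
  · refine ⟨analyticAt_iff_eventually_differentiableAt.2 ?_, ?_⟩ <;> filter_upwards [hn] with x hx
    · exact (iy_der hx).differentiableAt
    · simpa only [latR, latD, map_mul, eval_C, map_pow, eval_X] using (iy_der hx).deriv
  · exact ⟨analyticAt_id, Eventually.of_forall fun x => by simp [latR, latD]⟩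
  have a : AnalyticAt ℂ (fun x => latS q.1 • zz p t c x + y) 0 :=
    ((lat_an hp t c 0 h0).const_smul (c := latS q.1)).add analyticAt_const
  have e : latS q.1 • zz p t c 0 + y = y := by simp [lat_zero]
  refine ⟨(G.bx_an q.2 y hy).comp_of_eq (f := fun x => latS q.1 • zz p t c x + y) a e, ?_⟩
  filter_upwards [hn, a.continuousAt.eventually (G.om_open.mem_nhds (Set.mem_of_eq_of_mem e hy))] with x hx h1
  have d1 : HasDerivAt (zz p t c) (∑ l, (x ^ (t l - 1) * iy p x) • c l) x :=
    HasDerivAt.fun_sum fun l _ => (U_der hp (t l) hx).smul_const (c l)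
  have d2 := (G.bx_an q.2 _ h1).differentiableAt.hasFDerivAt.comp_hasDerivAt
    (f := fun x => latS q.1 • zz p t c x + y) x ((d1.fun_const_smul (latS q.1)).add_const y)
  refine (d2.deriv.trans (end2_lin _ _)).trans ?_
  simp only [latD, map_sum, map_mul, map_pow, eval_C, eval_X, eval_rename, latR]
  refine Finset.sum_congr rfl fun j _ => ?_
  congr 1
  · simp only [Pi.smul_apply, Finset.sum_apply, smul_eq_mul]
  · exact G.bx_der j q.2 h1

theorem lat_map {G : Gx A m} {x : Fin g → ℂ} (hG : G.Arith 0 x) (σ : ℂ →ₐ[Qb] ℂ) (t : ι → ℕ)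
    (c : ι → Fin g → ℂ) (i : Bool ⊕ Bool × Option (Fin (N + 1))) :
    map (σ : ℂ →+* ℂ) (latD G p t c i) = latD G p t (fun i j => σ (c i j)) i := by
  have h1 : σ (p / 2) = p / 2 := by rw [map_div₀, map_natCast, map_ofNat]
  have h2 : ∀ ε, σ (latS ε) = latS ε := by rintro (_ | _) <;> simp only [latS, Bool.false_eq_true, ↓ reduceIte, map_neg, map_one]
  rcases i with (_ | _) | q <;> simp only [latD, map_sum, map_mul, map_pow, map_C, map_X, map_one,
    map_rename, Gx.map_bd hG, RingHom.coe_coe, h1, h2]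

/-- Numerators of even functions. -/
noncomputable def latN (A : AbVar g N) (y : Fin g → ℂ) (i j : Fin (N + 1)) (w : Fin g → ℂ) : ℂ :=
  A.θ i (w + y) * A.θ j (-w + y) + A.θ i (-w + y) * A.θ j (w + y)

theorem lat_en (y : Fin g → ℂ) (i j : Fin (N + 1)) : En (latN A y i j) := by
  have e := fun i => en_affine (A.hol i) (ContinuousLinearMap.id ℂ _) y
  have e' := fun i => en_affine (A.hol i) (-ContinuousLinearMap.id ℂ _) y
  exact ((e i).mul (e' j)).add ((e' i).mul (e j))

theorem lat_div (y : Fin g → ℂ) (i j k : Fin (N + 1)) (w : Fin g → ℂ) :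
    latN A y i j w / latN A y k k w =
      (xc A k (w + y) i * xc A k (-w + y) j + xc A k (-w + y) i * xc A k (w + y) j) / 2 := by
  simp only [latN, xc, div_mul_div_comm, mul_comm (A.θ k (-w + y)), ← add_div, ← two_mul, div_div,
    mul_comm _ (2 : ℂ)]

theorem aj_lat (hp : p ≠ 0) {t : ι → ℕ} (ht : ∀ i, t i ≠ 0 ∧ 2 * t i < p) {c : ι → Fin g → ℂ}
    (h : ∀ k < p, ∃ n, pts p t c (fun i => BB p (t i)) k = A.per n) (σ : ℂ →ₐ[Qb] ℂ) :
    ∀ k < p, ∃ n, pts p t (fun i j => σ (c i j)) (fun i => BB p (t i)) k = A.per n := by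
  intro k hk
  obtain ⟨G, x, hG, -⟩ := exists_gx A (m := 0) (ι := Fin 0) Fin.elim0 (fun i => i.elim0)
    Fin.elim0 0 fun l => l.elim0
  obtain ⟨L, hL⟩ := mer (V := Fin g → ℂ) hp ht
  obtain ⟨y, hy, hy2⟩ := ((Gx.end4_om G).and ((eventually_all_finset (Finset.range p)).2
    fun k _ => ((gen_tr (pts p t c L k)).eventually (Gx.end4_om G)).and
      ((gen_tr (-pts p t c L k)).eventually (Gx.end4_om G)))).exists
  obtain ⟨y', hy', hσ⟩ := cj_pt hG σ hy
  set c' : ι → Fin g → ℂ := fun i j => σ (c i j)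
  set w := pts p t c' (fun i => BB p (t i)) k
  have nz : ∀ (y w : Fin g → ℂ), w + y ∈ G.Om → -w + y ∈ G.Om → latN A y G.k G.k w ≠ 0 :=
    fun y w h1 h2 => by
      rw [latN, mul_comm (A.θ G.k (-w + y)), ← two_mul]
      exact mul_ne_zero two_ne_zero (mul_ne_zero h1.1 h2.1)
  have h0 : (0 : ℂ) ∈ Sd p := sd_ball hp (by simp)
  have key : ∀ i j, latN A y' i j w = xc A G.k y' i * xc A G.k y' j * latN A y' G.k G.k w := by
    intro i j
    obtain ⟨P, D, h1, h2⟩ := hL c _ _ (lat_en y i j) (lat_en y G.k G.k)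
      (fun w => by rw [lat_div, lat_div, neg_neg, add_comm])
      (fun k hk w => by
        obtain ⟨n, hn⟩ := h k hk
        rw [hn, lat_div, lat_div, add_right_comm, neg_add, ← end1_per_neg, add_right_comm (-w),
          xc_perZ, xc_perZ])
      (nz y 0 (by simpa using hy) (by simpa using hy)) fun k hk => by
        have := hy2 k (Finset.mem_range.2 hk)
        exact nz y _ (add_comm y _ ▸ this.1) (add_comm y _ ▸ this.2)
    have h3 := cj_jet (fun i => (lat_der G hp t c hy i).1) (fun i => (lat_der G hp t c' hy' i).1)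
      (latD G p t c) σ (fun i => (lat_der G hp t c hy i).2)
      (fun i => by simpa only [lat_map hG] using (lat_der G hp t c' hy' i).2)
      (by rintro ((_ | _) | q) <;> simp [latR, iy_zero hp, lat_zero, hσ])
      (H := D.toMvPolynomial (.inl true) * (X (.inr (true, some i)) * X (.inr (false, some j)) +
        X (.inr (false, some i)) * X (.inr (true, some j))) - 2 * P.toMvPolynomial (.inl true))
      (h2.mono fun x hx => by
        rw [lat_div] at hx
        simp [latR, latS, Gx.bx]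
        linear_combination 2 * hx)
    have an : AnalyticOnNhd ℂ (fun x => (D.map (σ : ℂ →+* ℂ)).eval x * latN A y' i j (zz p t c' x) -
        (P.map (σ : ℂ →+* ℂ)).eval x * latN A y' G.k G.k (zz p t c' x)) (Sd p) := fun x hx => by
      have e := fun i j => (lat_en (A := A) y' i j _ trivial).comp (lat_an hp t c' x hx)
      have e' := fun Q : Polynomial ℂ => Q.differentiable.analyticAt x
      exact ((e' _).mul (e i j)).sub ((e' _).mul (e G.k G.k))
    have h4 := an.eqOn_zero_of_preconnected_of_eventuallyEq_zero (sd_conn hp) h0 (by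
      have c0 := ((lat_en (A := A) y' G.k G.k _ trivial).comp (lat_an hp t c' 0 h0)).continuousAt
      filter_upwards [h3, c0.eventually_ne (y := 0) (by
        simpa only [Function.comp, lat_zero] using
          nz y' 0 (by simpa using hy') (by simpa using hy'))] with x e1 e2
      have e3 := (div_eq_iff e2).1 (lat_div (A := A) y' i j G.k (zz p t c' x))
      have e4 : ∀ Q : Polynomial ℂ, map (σ : ℂ →+* ℂ) (Q.toMvPolynomial
          (.inl true : Bool ⊕ Bool × Option (Fin (N + 1)))) =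
          (Q.map (σ : ℂ →+* ℂ)).toMvPolynomial (.inl true) := fun Q => by
        induction Q using Polynomial.induction_on <;> simp_all [pow_succ]
      simp only [map_sub, map_mul, map_add, map_X, e4, map_ofNat, eval_X, latR, latS, Gx.bx,
        eval_toMvPolynomial, if_true, one_smul, Bool.false_eq_true, if_false, neg_smul] at e1
      rw [Pi.zero_apply, e3, Function.comp_apply]
      linear_combination latN A y' G.k G.k (zz p t c' x) / 2 * e1)
    have t1 : Tendsto (fun r : ℝ => ze p ^ k * r) (𝓝[<] 1) (𝓝 (ze p ^ k)) := by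
      have : Continuous fun r : ℝ => ze p ^ k * r := by fun_prop
      simpa using (this.tendsto 1).mono_left nhdsWithin_le_nhds
    have t2 : Tendsto (fun r : ℝ => zz p t c' (ze p ^ k * r)) (𝓝[<] 1) (𝓝 w) := by
      simp only [zz, fun l => U_rot hp (ht l).1]
      exact tendsto_finsetSum _ fun l _ => ((U_lim hp (ht l).1).const_mul _).smul_const _
    have t3 := fun i j => ((lat_en (A := A) y' i j w trivial).continuousAt.tendsto).comp t2
    have t4 := fun Q : Polynomial ℂ => (Q.continuous.tendsto _).comp t1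
    have h5 := tendsto_nhds_unique (((t4 (D.map (σ : ℂ →+* ℂ))).mul (t3 i j)).sub
      ((t4 (P.map (σ : ℂ →+* ℂ))).mul (t3 G.k G.k))) ((tendsto_const_nhds (x := (0 : ℂ))).congr' (by
        filter_upwards [Ioo_mem_nhdsLT (zero_lt_one' ℝ)] with r hr
        exact (h4 ((sd_rot hp k).2 (sd_ball (x := r) hp (by simpa [abs_of_pos hr.1] using hr.2)))).symm))
    have z : σ (ze p ^ k) = ze p ^ k := sigma_alg σ (IsAlgebraic.pow (IsAlgebraic.of_pow
      (Nat.pos_of_ne_zero hp) (by rw [ze_pow hp]; exact isAlgebraic_one)) k)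
    have ev : ∀ Q : Polynomial ℂ, (Q.map (σ : ℂ →+* ℂ)).eval (ze p ^ k) = σ (Q.eval (ze p ^ k)) :=
      fun Q => by
        conv_lhs => rw [← z]
        exact Polynomial.eval_map_apply _ _
    obtain ⟨h6, h7⟩ := h1 k hk
    have h8 : ∀ i, σ (xc A G.k y i) = xc A G.k y' i := fun i => hσ (some i)
    rw [ev, ev, ← h7, lat_div] at h5
    simp only [map_mul, map_div₀, map_add, map_ofNat, neg_zero, zero_add, h8] at h5
    have h9 : σ (D.eval (ze p ^ k)) ≠ 0 := (map_ne_zero σ).2 h6
    apply mul_left_cancel₀ h9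
    linear_combination h5
  have h9 := rank_one (u := fun i => A.θ i (w + y')) (v := fun i => A.θ i (-w + y'))
    (ξ := xc A G.k y') (k := G.k) (A.ne _) (A.ne _) (div_self hy'.1) fun i j => by
      have := key i j
      simp only [latN] at this
      linear_combination this
  obtain ⟨n, hn⟩ := A.inj y' (w + y') (A.θ G.k (w + y') / A.θ G.k y') fun i => by
    rw [h9 i, xc]
    ring
  exact ⟨n, add_right_cancel (hn.trans (add_comm _ _))⟩

/-! ### Block FIN -/

/-- `∑ k < p, ze ^ (k * (p - τ)) • pts k = (p * BB τ) • ∑ i with t i = τ, c i`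
(`IsPrimitiveRoot.geom_sum_eq_zero` or `geom_sum_eq`); `aj_lat`, `B_ne`, `alg_of_countable`. -/
theorem aj_alg (hp : p ≠ 0) {t : ι → ℕ} (ht : ∀ i, t i ≠ 0 ∧ 2 * t i < p) {c : ι → Fin g → ℂ}
    (h : ∀ k < p, ∃ n, pts p t c (fun i => BB p (t i)) k = A.per n) (τ : ℕ) (j : Fin g) :
    IsAlgebraic ℚ (∑ i with t i = τ, c i j) := by
  by_cases h0 : ∃ i, t i = τ
  swap
  · rw [Finset.filter_eq_empty_iff.2 fun i _ e => h0 ⟨i, e⟩]
    exact isAlgebraic_zero
  obtain ⟨i₀, rfl⟩ := h0
  have hz : IsPrimitiveRoot (ze p) p := isPrimitiveRoot_exp p hp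
  have g0 : ∀ i, ∑ k : Fin p, ze p ^ (k * (p - t i₀)) * ze p ^ (k * t i) =
      if t i = t i₀ then (p : ℂ) else 0 := fun i => by
    have h1 := ht i
    have h2 := ht i₀
    simp only [← pow_add, ← mul_add]
    simp only [pow_mul']
    split_ifs with e
    · simp only [e, Nat.sub_add_cancel (show t i₀ ≤ p by omega), hz.pow_eq_one, one_pow, Finset.sum_const, Finset.card_univ, Fintype.card_fin, nsmul_eq_mul, mul_one]
    · rw [Fin.sum_univ_eq_sum_range (fun k => (ze p ^ (p - t i₀ + t i)) ^ k), geom_sum_eq, ← pow_mul,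
        mul_comm, pow_mul, hz.pow_eq_one, one_pow, sub_self, zero_div]
      rw [Ne, hz.pow_eq_one_iff_dvd]
      rintro ⟨r, hr⟩
      rcases r with _ | _ | r
      · omega
      · omega
      · rw [mul_add, mul_add] at hr
        omega
  refine alg_of_countable (Set.countable_range fun n : Fin p → Fin (2 * g) → ℤ =>
    (∑ k : Fin p, ze p ^ (k * (p - t i₀)) * A.per (n k) j) / (p * BB p (t i₀))) fun σ => ?_
  choose n hn using fun k : Fin p => aj_lat hp ht h σ k k.2
  refine ⟨n, ?_⟩
  simp only [← hn, pts, Finset.sum_apply, Pi.smul_apply, smul_eq_mul, Finset.mul_sum, ← mul_assoc]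
  rw [Finset.sum_comm, div_eq_iff (mul_ne_zero (Nat.cast_ne_zero.2 hp) (B_ne hp (ht i₀).1)),
    map_sum, Finset.sum_filter, Finset.sum_mul]
  refine Finset.sum_congr rfl fun i _ => ?_
  rw [← Finset.sum_mul, ← Finset.sum_mul, g0]
  split_ifs with e
  · rw [e]
    ring
  · simp

theorem fin_sum (l : (Fin g → ℂ) →ₗ[ℂ] ℂ) (z : Fin g → ℂ) :
    l z = ∑ k, z k * l (Pi.single k 1) := by
  conv_lhs => rw [pi_eq_sum_univ' z, map_sum]
  simp only [map_smul, smul_eq_mul]

/-- In the coordinates of `exists_basis` (`dR_coord`, `omega_mem`) the `l (single i 1)` are the only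
solution of a linear system with algebraic coefficients, so they are fixed by every `σ`
(`alg_of_countable`, `sigma_alg`). -/
theorem first_alg (l : (Fin g → ℂ) →ₗ[ℂ] ℂ) (h : (fun j => l (A.ω j)) ∈ Submodule.span Qb A.dR)
    (i : Fin g) : IsAlgebraic ℚ (l (Pi.single i 1)) := by
  obtain ⟨P, h0, h1⟩ := exists_basis A
  have hP : P.transpose.det ≠ 0 := by rwa [Matrix.det_transpose]
  refine alg_of_countable (Set.countable_singleton (l (Pi.single i 1))) fun σ => ?_
  have e : (fun j => l (A.ω j)) = ∑ k, l (Pi.single k 1) • fun j => A.ω j k := by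
    funext j
    rw [fin_sum l]
    simp only [Finset.sum_apply, Pi.smul_apply, smul_eq_mul, mul_comm]
  have e1 : P.transpose⁻¹.mulVec
      (∑ k, (σ (l (Pi.single k 1)) - l (Pi.single k 1)) • fun j => A.ω j k) = 0 := by
    funext m
    have a := sigma_alg σ (dR_coord hP h1 h m)
    have b := fun k => sigma_alg σ (dR_coord hP h1 (Submodule.subset_span (omega_mem A k)) m)
    rw [e] at a
    simp only [Matrix.mulVec_sum, Matrix.mulVec_smul, Finset.sum_apply, Pi.smul_apply, smul_eq_mul,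
      map_sum, map_mul, b, sub_mul, Finset.sum_sub_distrib, Pi.zero_apply] at a ⊢
    rw [a, sub_self]
  have e2 := Matrix.eq_zero_of_mulVec_eq_zero (by
    rw [Matrix.det_nonsing_inv, Ring.inverse_eq_inv']
    exact inv_ne_zero hP) e1
  have e3 : (∑ k, (σ (l (Pi.single k 1)) - l (Pi.single k 1)) • LinearMap.proj k :
      (Fin g → ℂ) →ₗ[ℝ] ℂ) = 0 := A.ω.ext fun j => by simpa only [LinearMap.coe_sum, LinearMap.coe_smul, LinearMap.coe_proj, Finset.sum_apply, Pi.smul_apply, Function.eval, smul_eq_mul, LinearMap.zero_apply, Pi.zero_apply] using congrFun e2 j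
  have e4 := LinearMap.congr_fun e3 (Pi.single i 1)
  simpa only [Set.mem_singleton_iff, LinearMap.coe_sum, LinearMap.coe_smul, LinearMap.coe_proj, Finset.sum_apply, Pi.smul_apply, Function.eval, Pi.single_apply, smul_eq_mul, mul_ite, mul_one, mul_zero, Finset.sum_ite_eq', Finset.mem_univ, ↓ reduceIte, LinearMap.zero_apply, sub_eq_zero] using e4

/-- The `l φ`, `φ ∈ Φ`, have a dual basis `v φ` (`vec_li`, `h.1`).  Take `D > 0` with all
`D * ζ ^ k`, `k < p`, in the lattice spanned by `b`, and `c φ = (D / BB (t φ)) • v φ`; `aj_alg`,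
`first_alg` for `π φ • l φ`. -/
theorem aj {E : Type} [Field E] [NumberField E] {b : Basis (Fin (2 * g)) ℚ E}
    {Φ : Set (E →+* ℂ)} {π : (E →+* ℂ) → ℂ} (h : IsCM A b Φ) (q : Per A b π) {ζ : E}
    (t : (E →+* ℂ) → ℕ)
    (ht : ∀ φ ∈ Φ, 0 < t φ ∧ 2 * t φ < p ∧ φ ζ = exp (2 * Real.pi * I / p) ^ t φ) :
    ∀ φ ∈ Φ, IsAlgebraic ℚ (π φ / betaIntegral (t φ / p) (1 / 2)) := by
  classical
  intro φ hφ
  have hp : p ≠ 0 := by have := ht φ hφ; omega
  choose l hl using fun ψ : Φ => h.2 ψ ψ.2
  have hc : Fintype.card Φ = g := by rw [← h.1, Set.ncard_eq_toFinset_card', Set.toFinset_card]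
  have hi : LinearIndependent ℂ l := .of_comp
    (LinearMap.pi fun j => LinearMap.applyₗ (A.ω j)) (by
      have := (vec_li b).comp (fun ψ : Φ => ψ.1) Subtype.val_injective
      rwa [show vec b ∘ (fun ψ : Φ => ψ.1) = fun ψ j => l ψ (A.ω j) from
        funext fun ψ => funext fun j => (hl ψ j).symm] at this)
  have hs := hi.span_eq_top_of_card_eq_finrank' (by
    rw [hc]; exact (Subspace.dual_finrank_eq.trans (by simp only [finrank_fintype_fun_eq_card, Fintype.card_fin])).symm)
  have hT : Function.Injective (LinearMap.pi l) := (injective_iff_map_eq_zero _).2 fun z hz =>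
    (Module.forall_dual_apply_eq_zero_iff ℂ z).1 fun f => by
      have : Submodule.span ℂ (Set.range l) ≤ LinearMap.ker (LinearMap.applyₗ z) :=
        Submodule.span_le.2 (by rintro _ ⟨ψ, rfl⟩; exact congrFun hz ψ)
      exact this (hs ▸ Submodule.mem_top)
  choose v hv using fun ψ : Φ => (LinearMap.injective_iff_surjective_of_finrank_eq_finrank
    (by simp only [finrank_fintype_fun_eq_card, Fintype.card_fin, hc])).1 hT (Pi.single ψ 1)
  have hv' : ∀ χ ψ, l χ (v ψ) = if χ = ψ then 1 else 0 := fun χ ψ => by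
    simpa [Pi.single_apply] using congrFun (hv ψ) χ
  obtain ⟨⟨D, hD⟩, hn⟩ := IsLocalization.exist_integer_multiples_of_finite (nonZeroDivisors ℤ)
    fun x : Fin p × Fin (2 * g) => b.repr (ζ ^ (x.1 : ℕ)) x.2
  choose n hn using hn
  have ht' : ∀ ψ : Φ, t ψ ≠ 0 ∧ 2 * t ψ < p := fun ψ => ⟨(ht ψ ψ.2).1.ne', (ht ψ ψ.2).2.1⟩
  have ha := aj_alg (A := A) hp ht' (c := fun ψ => ((D : ℂ) / BB p (t ψ)) • v ψ) (fun k hk =>
    ⟨fun j => n (⟨k, hk⟩, j), hT (funext fun χ => by
      have e := congrArg (fun x => (D : ℂ) * χ.1 x) (b.sum_repr (ζ ^ k))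
      have e1 : ∀ j, (n (⟨k, hk⟩, j) : ℂ) = D * b.repr (ζ ^ k) j := fun j => by
        have := hn (⟨k, hk⟩, j)
        simp only [eq_intCast, zsmul_eq_mul] at this
        exact_mod_cast this
      simp only [map_sum, map_mul, map_ratCast, map_pow, (ht χ χ.2).2.2, Rat.smul_def,
        Finset.mul_sum, ← mul_assoc, ← e1] at e
      simp only [pts, AbVar.per, LinearMap.pi_apply, map_sum, map_smul, map_zsmul, hl, hv',
        smul_eq_mul, mul_ite, mul_one, mul_zero, Finset.sum_ite_eq, Finset.mem_univ, if_true]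
      simp only [zsmul_eq_mul, e]
      rw [mul_assoc, mul_div_cancel₀ _ (B_ne hp (ht' χ).1), mul_comm k, pow_mul, mul_comm]
      rfl)⟩) (t φ)
  have hf := first_alg (A := A) (π φ • l ⟨φ, hφ⟩) (by
    convert q.mem φ using 1
    funext j
    simp [hl, vec])
  have e2 : IsAlgebraic ℚ ((π φ • l ⟨φ, hφ⟩)
      (∑ ψ : Φ with t ψ.1 = t φ, ((D : ℂ) / BB p (t ψ.1)) • v ψ)) := by
    rw [fin_sum]
    exact al_isAlg_sum _ fun j => .mul (by simpa only [Finset.sum_apply] using ha j) (hf j)
  simp only [LinearMap.smul_apply, map_sum, map_smul, hv', smul_eq_mul, mul_ite, mul_one, mul_zero,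
    Finset.sum_ite_eq, Finset.mem_filter, Finset.mem_univ, true_and, if_true, BB] at e2
  have d0 : (D : ℂ) ≠ 0 := Int.cast_ne_zero.2 (nonZeroDivisors.ne_zero hD)
  have p0 : (p : ℂ) ≠ 0 := Nat.cast_ne_zero.2 hp
  have e3 := e2.mul (isAlgebraic_intCast (A := ℂ) (D * p)).inv
  rwa [Int.cast_mul, Int.cast_natCast, div_div_eq_mul_div, div_mul_eq_mul_div, ← div_eq_mul_inv,
    div_right_comm, mul_div_cancel_left₀ _ (mul_ne_zero d0 p0)] at e3

end GPCJ
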