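import Pool.Agent.MP_57341d_ag.Mg.H73_Gaga

attribute [-instance] MonTypeEquivalenceMon.monMonoid AddQuantale.instAddLeftMono
  NonarchimedeanRing.toIsTopologicalRing IsTopologicalTorsor.toContinuousSMul
  ProperSMul.toContinuousSMul RightPreLieAlgebra.toModule LeftPreLieAlgebra.toModule
  Valued.isTopologicalDivisionRing
  TopologicalSpace.instSecondCountableTopologyOfLindelofSpaceOfPseudoMetrizableSpace
  IdemSemiring.toCanonicallyOrderedAdd continuousSub_of_discreteTopology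
  Topology.IsScott.instClosedIicTopologyOfUnivSet NumberField.to_charZero Valued.toUniformSpace
  AddQuantale.instAddRightMono GrpTypeEquivalenceGrp.grpGroup
  LinearOrderedCommMonoidWithZero.toPosMulStrictMono CommMonTypeEquivalenceCommMon.commMonCommMonoid
  NonarchimedeanAddGroup.toIsTopologicalAddGroup NonUnitalNonAssocSemiring.toAddCommMonoid
  NonUnitalNonAssocRing.toAddCommGroup Semiring.toAddCommMonoid instCoeOTCOfCoeOut
  CStarAlgebra.instOrderClosedTopology LieRinehartAlgebra.toIsScalarTower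
  LinearOrderedCommMonoidWithZero.toIsBotZeroClass Quantale.instMulRightMono
  PolishSpace.toSecondCountableTopology Fintype.decidableForallFintype instCoeTOfCoeDep
  instCoeHTCTOfCoeTailOfCoeHTC instDiscreteTopologyOfAlexandrovDiscreteOfT1Space Ring.toAddCommGroup
  IsFormallyReal.instIsReduced NonUnitalNonAssocSemiring.toDistrib

/-! Abelian integrals on the curve `y ^ 2 = 1 - x ^ p`. -/

open Complex Filter Topology

namespace GPCJ

/-- The plane cut along the rays from the roots of unity. -/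
def Sd (p : ℕ) : Set ℂ := {x | 1 - x ^ p ∈ slitPlane}

/-- The function `1 / y`. -/
noncomputable def iy (p : ℕ) (x : ℂ) : ℂ := (1 - x ^ p) ^ (-(1 / 2) : ℂ)

/-- The primitive root of unity. -/
noncomputable def ze (p : ℕ) : ℂ := exp (2 * Real.pi * I / p)

/-- The integral along the segment from `0` to `x`. -/
noncomputable def prim (h : ℂ → ℂ) (x : ℂ) : ℂ := x * ∫ u in (0 : ℝ)..1, h (u * x)

/-- The integrals of the first kind. -/
noncomputable def UU (p t : ℕ) : ℂ → ℂ := prim fun x => x ^ (t - 1) * iy p x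

/-- The same in the coordinate `y`. -/
noncomputable def WW (p t : ℕ) : ℂ → ℂ := prim fun y => 2 / p * (1 - y ^ 2) ^ ((t : ℂ) / p - 1)

/-- The half periods. -/
noncomputable def BB (p t : ℕ) : ℂ := betaIntegral (t / p) (1 / 2) / p

variable {p t : ℕ} {x s : ℂ}

/-! ### Block CA -/

/-- Differentiate under the integral sign
(`intervalIntegral.hasDerivAt_integral_of_dominated_loc_of_deriv_le`; `deriv h` is bounded on the
compact set of the `u * z`, `z` in a closed ball); `h (u x) + u x h' (u x)` is the derivative of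
`u ↦ u * h (u x)`. -/
theorem prim_der {O : Set ℂ} (hO : IsOpen O) (hs : ∀ x ∈ O, ∀ u ∈ Set.Icc (0 : ℝ) 1, u * x ∈ O)
    {h : ℂ → ℂ} (hh : DifferentiableOn ℂ h O) (hx : x ∈ O) : HasDerivAt (prim h) (h x) x := by
  have hg := hh.analyticOnNhd hO
  have hK : IsCompact ((fun s : ℝ => (s : ℂ) * x) '' Set.Icc 0 1) :=
    isCompact_Icc.image (by fun_prop)
  obtain ⟨δ, hδ, hsub⟩ := hK.exists_cthickening_subset_open hO
    (by rintro _ ⟨s, hs', rfl⟩; exact hs x hx s hs')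
  set K := Metric.cthickening δ ((fun s : ℝ => (s : ℂ) * x) '' Set.Icc 0 1)
  have hKc : IsCompact K := hK.cthickening
  have hmem : ∀ z ∈ Metric.ball x δ, ∀ s : ℝ, 0 ≤ s → s ≤ 1 → (s : ℂ) * z ∈ K := by
    intro z hz s h0 h1
    refine Metric.mem_cthickening_of_dist_le _ ((s : ℂ) * x) _ _ ⟨s, ⟨h0, h1⟩, rfl⟩ ?_
    rw [dist_eq_norm, ← mul_sub, norm_mul, norm_real, Real.norm_of_nonneg h0]
    have := mem_ball_iff_norm.1 hz
    nlinarith only [hδ, h0, h1, this]
  have hc : ContinuousOn (fun w => h w + w * deriv h w) O :=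
    hg.continuousOn.add (continuousOn_id.mul hg.deriv.continuousOn)
  obtain ⟨C, hC⟩ := hKc.exists_bound_of_continuousOn (hc.mono hsub)
  have hcs : ∀ z ∈ O, ∀ {f : ℂ → ℂ}, ContinuousOn f O →
      ContinuousOn (fun s : ℝ => f (s * z)) (Set.uIcc 0 1) := fun z hz f hf =>
    hf.comp (by fun_prop) fun s hs' => by
      rw [Set.uIcc_of_le zero_le_one] at hs'; exact hs z hz s hs'
  have hd : ∀ z ∈ O, ∀ s : ℝ, 0 ≤ s → s ≤ 1 → HasDerivAt h (deriv h (s * z)) (s * z) :=
    fun z hz s h0 h1 => (hg _ (hs z hz s ⟨h0, h1⟩)).differentiableAt.hasDerivAt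
  have key := intervalIntegral.hasDerivAt_integral_of_dominated_loc_of_deriv_le
    (μ := MeasureTheory.volume) (a := 0) (b := 1) (F := fun z (s : ℝ) => z * h (s * z))
    (F' := fun z (s : ℝ) => h (s * z) + s * z * deriv h (s * z)) (x₀ := x)
    (s := Metric.ball x δ ∩ O) (bound := fun _ => C)
    (inter_mem (Metric.ball_mem_nhds x hδ) (hO.mem_nhds hx))
    (by
      filter_upwards [hO.mem_nhds hx] with z hz
      exact ((continuousOn_const.mul (hcs z hz hg.continuousOn)).mono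
        Set.uIoc_subset_uIcc).aestronglyMeasurable measurableSet_uIoc)
    ((continuousOn_const.mul (hcs x hx hg.continuousOn)).intervalIntegrable)
    (((hcs x hx hc).mono Set.uIoc_subset_uIcc).aestronglyMeasurable measurableSet_uIoc)
    (Eventually.of_forall fun s hs' z hz => by
      rw [Set.uIoc_of_le zero_le_one] at hs'
      exact hC _ (hmem z hz.1 s hs'.1.le hs'.2))
    intervalIntegrable_const
    (Eventually.of_forall fun s hs' z hz => by
      rw [Set.uIoc_of_le zero_le_one] at hs'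
      have := (hasDerivAt_id z).mul ((hd z hz.2 s hs'.1.le hs'.2).comp z
        ((hasDerivAt_id z).const_mul (s : ℂ)))
      exact this.congr_deriv (by simp; ring))
  have e : ∫ s in (0:ℝ)..1, (h (s * x) + s * x * deriv h (s * x)) = h x := by
    rw [intervalIntegral.integral_eq_sub_of_hasDerivAt (f := fun s : ℝ => (s : ℂ) * h (s * x))]
    · simp
    · intro s hs'
      rw [Set.uIcc_of_le zero_le_one] at hs'
      have h1 : HasDerivAt (fun w : ℂ => w * h (w * x)) (h (s * x) + s * x * deriv h (s * x)) s := by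
        have := (hasDerivAt_id (s : ℂ)).mul ((hd x hx s hs'.1 hs'.2).comp (s : ℂ)
          ((hasDerivAt_id (s : ℂ)).mul_const x))
        exact this.congr_deriv (by simp; ring)
      exact h1.comp_ofReal
    · exact (hcs x hx hc).intervalIntegrable
  have h2 := key.2
  rw [e] at h2
  refine h2.congr_of_eventuallyEq (Eventually.of_forall fun z => ?_)
  simp [prim]

theorem prim_zero (h : ℂ → ℂ) : prim h 0 = 0 := by
  simp [prim]

theorem sd_open (p : ℕ) : IsOpen (Sd p) := by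
  exact isOpen_slitPlane.preimage (by fun_prop : Continuous fun x : ℂ => 1 - x ^ p)

/-- `starConvex_one_slitPlane`. -/
theorem sd_star (hp : p ≠ 0) : ∀ x ∈ Sd p, ∀ u ∈ Set.Icc (0 : ℝ) 1, u * x ∈ Sd p := by
  rintro x hx s ⟨h0, h1⟩
  have h := starConvex_one_slitPlane hx (a := 1 - s ^ p) (b := s ^ p)
    (sub_nonneg.2 (pow_le_one₀ h0 h1)) (pow_nonneg h0 _) (by ring)
  have e : (1 - s ^ p) • (1 : ℂ) + s ^ p • (1 - x ^ p) = 1 - ((s : ℂ) * x) ^ p := by
    simp only [real_smul]; push_cast; ring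
  rw [e] at h; exact h

theorem sd_ball (hp : p ≠ 0) (hx : ‖x‖ < 1) : x ∈ Sd p := by
  have := mem_slitPlane_of_norm_lt_one (z := -x ^ p)
    (by rw [norm_neg, norm_pow]; exact pow_lt_one₀ (norm_nonneg _) hx hp)
  rwa [← sub_eq_add_neg] at this

theorem sd_conn (hp : p ≠ 0) : IsPreconnected (Sd p) := by
  have : StarConvex ℝ (0 : ℂ) (Sd p) := by
    intro x hx a b ha hb hab
    simpa using sd_star hp x hx b ⟨hb, by linarith⟩
  exact (this.isPathConnected (sd_ball hp (by simp))).isConnected.isPreconnected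

/-- `r * x ∈ Sd p`, or `exp (ε * I) * x ∈ Sd p` for small real `ε ≠ 0`. -/
theorem sd_dense (hp : p ≠ 0) : Dense (Sd p) := by
  have h1 : Dense {w : ℂ | 1 - w ∈ slitPlane} := by
    have h2 : Dense {w : ℂ | w.im ≠ 0} :=
      (dense_compl_singleton (0 : ℝ)).preimage isOpenMap_im
    exact h2.mono fun w hw => Or.inr (by simpa using hw)
  have : NeZero p := ⟨hp⟩
  exact h1.preimage (isOpenQuotientMap_pow p).isOpenMap

theorem ze_pow (hp : p ≠ 0) : ze p ^ p = 1 := by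
  exact (isPrimitiveRoot_exp p hp).pow_eq_one

theorem sd_rot (hp : p ≠ 0) (k : ℕ) : ze p ^ k * x ∈ Sd p ↔ x ∈ Sd p := by
  simp only [Sd, Set.mem_ofPred_eq, mul_pow, ← pow_mul, mul_comm k p]
  rw [pow_mul, ze_pow hp, one_pow, one_mul]

theorem iy_der (hx : x ∈ Sd p) : HasDerivAt (iy p) (p / 2 * x ^ (p - 1) * iy p x ^ 3) x := by
  have h1 : HasDerivAt (fun x : ℂ => 1 - x ^ p) (-(p * x ^ (p - 1))) x :=
    (hasDerivAt_pow p x).const_sub 1
  refine (h1.cpow_const (c := -(1 / 2)) hx).congr_deriv ?_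
  rw [iy, ← cpow_mul_nat, show (-(1 / 2) * (3 : ℕ) : ℂ) = -(1 / 2) - 1 by push_cast; ring]
  ring

theorem iy_zero (hp : p ≠ 0) : iy p 0 = 1 := by
  simp [iy, hp]

theorem U_der (hp : p ≠ 0) (t : ℕ) (hx : x ∈ Sd p) :
    HasDerivAt (UU p t) (x ^ (t - 1) * iy p x) x := by
  exact prim_der (sd_open p) (sd_star hp) (h := fun x => x ^ (t - 1) * iy p x) (fun z hz =>
    ((hasDerivAt_pow _ z).mul (iy_der hz)).differentiableAt.differentiableWithinAt) hx

theorem U_an (hp : p ≠ 0) (t : ℕ) : AnalyticOnNhd ℂ (UU p t) (Sd p) := by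
  exact DifferentiableOn.analyticOnNhd
    (fun _ hx => (U_der hp t hx).differentiableAt.differentiableWithinAt) (sd_open p)

theorem U_rot (hp : p ≠ 0) (ht : t ≠ 0) (k : ℕ) (x : ℂ) :
    UU p t (ze p ^ k * x) = ze p ^ (k * t) * UU p t x := by
  obtain ⟨t, rfl⟩ : ∃ u, t = u + 1 := ⟨t - 1, by omega⟩
  have h1 : (ze p ^ k) ^ p = 1 := by rw [← pow_mul, mul_comm, pow_mul, ze_pow hp, one_pow]
  have e : ∀ s : ℝ, (s * (ze p ^ k * x)) ^ t * iy p (s * (ze p ^ k * x)) =
      (ze p ^ k) ^ t * ((s * x) ^ t * iy p (s * x)) := fun s => by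
    simp only [iy, mul_pow, h1]; ring_nf
  simp only [UU, prim, Nat.add_sub_cancel, e, intervalIntegral.integral_const_mul]
  ring

theorem W_der (p t : ℕ) (hx : x ∈ Sd 2) :
    HasDerivAt (WW p t) (2 / p * (1 - x ^ 2) ^ ((t : ℂ) / p - 1)) x := by
  refine prim_der (sd_open 2) (sd_star two_ne_zero)
    (h := fun y => 2 / p * (1 - y ^ 2) ^ ((t : ℂ) / p - 1)) (fun z hz => ?_) hx
  exact (((hasDerivAt_pow 2 z).const_sub 1).cpow_const hz |>.const_mul
    _).differentiableAt.differentiableWithinAt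

theorem W_an (p t : ℕ) : AnalyticOnNhd ℂ (WW p t) (Sd 2) := by
  exact DifferentiableOn.analyticOnNhd
    (fun _ hx => (W_der p t hx).differentiableAt.differentiableWithinAt) (sd_open 2)

theorem W_odd (p t : ℕ) (x : ℂ) : WW p t (-x) = -WW p t x := by
  simp only [WW, prim, mul_neg, neg_sq, neg_mul]

/-- `Gamma_mul_Gamma_eq_betaIntegral`. -/
theorem B_ne (hp : p ≠ 0) (ht : t ≠ 0) : BB p t ≠ 0 := by
  have ha : 0 < (t / p : ℂ).re := by
    rw [← ofReal_natCast, ← ofReal_natCast, ← ofReal_div, ofReal_re]; positivity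
  have h := Gamma_mul_Gamma_eq_betaIntegral ha (show 0 < (1 / 2 : ℂ).re by simp)
  refine div_ne_zero (fun h0 => ?_) (by exact_mod_cast hp)
  rw [h0, mul_zero] at h
  exact mul_ne_zero (Gamma_ne_zero_of_re_pos ha) (Gamma_ne_zero_of_re_pos (by simp)) h

/-! ### Block CB -/

theorem cb_pow (p : ℕ) (s : ℂ) : exp s ^ p = exp (p * s) := (exp_nat_mul s p).symm

theorem cb_im (hp : p ≠ 0) (hs : |s.im| < Real.pi / p) : |((p : ℂ) * s).im| < Real.pi := by
  have h0 : (0 : ℝ) < p := Nat.cast_pos.2 (Nat.pos_of_ne_zero hp)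
  rw [lt_div_iff₀ h0] at hs
  simp only [mul_im, natCast_re, natCast_im, zero_mul, add_zero, abs_mul, abs_of_pos h0]
  linarith

theorem cb_mem (hp : p ≠ 0) (hs : |s.im| < Real.pi / p) :
    exp s ∈ Sd p ↔ s.re < 0 ∨ s.im ≠ 0 := by
  have h0 : (0 : ℝ) < p := Nat.cast_pos.2 (Nat.pos_of_ne_zero hp)
  have h1 := abs_lt.1 (cb_im hp hs)
  have hre : ((p : ℂ) * s).re = p * s.re := by simp
  have him : ((p : ℂ) * s).im = p * s.im := by simp
  simp only [Sd, Set.mem_ofPred_eq, cb_pow, mem_slitPlane_iff, sub_re, one_re, sub_im, one_im,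
    exp_re, exp_im, zero_sub, ne_eq, neg_eq_zero, mul_eq_zero, (Real.exp_pos _).ne', false_or,
    Real.sin_eq_zero_iff_of_lt_of_lt h1.1 h1.2]
  rw [hre, him]
  by_cases h : s.im = 0
  · simp only [h, mul_zero, Real.cos_zero, mul_one, not_true, or_false, sub_pos,
      Real.exp_lt_one_iff]
    constructor
    · intro h2
      by_contra h3
      exact absurd h2 (not_lt.2 (mul_nonneg h0.le (not_lt.1 h3)))
    · intro h2
      exact mul_neg_of_pos_of_neg h0 h2
  · simp only [sub_pos, mul_eq_zero, h0.ne', h, or_self, not_false_eq_true, or_true]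

theorem cb_sq (v : ℂ) : (v ^ (1 / 2 : ℂ)) ^ 2 = v := by
  simp

theorem cb_der (hp : p ≠ 0) (ht : t ≠ 0) (hs : |s.im| < Real.pi / p) (h : exp s ∈ Sd p) :
    HasDerivAt (fun s => UU p t (exp s) + WW p t ((1 - exp s ^ p) ^ (1 / 2 : ℂ))) 0 s := by
  have h1 := abs_lt.1 (cb_im hp hs)
  have hl : log (exp (p * s)) = p * s := log_exp h1.1 h1.2.le
  have hp' : (p : ℂ) ≠ 0 := Nat.cast_ne_zero.2 hp
  have he : 1 - ((1 - exp s ^ p) ^ (1 / 2 : ℂ)) ^ 2 = exp (p * s) := by
    rw [cb_sq, cb_pow]; ring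
  have hy : (1 - exp s ^ p) ^ (1 / 2 : ℂ) ∈ Sd 2 := by
    show 1 - _ ^ 2 ∈ slitPlane
    rw [he, mem_slitPlane_iff_arg]
    refine ⟨?_, exp_ne_zero _⟩
    rw [← log_im, hl]
    exact h1.2.ne
  have d1 := (U_der hp t h).comp s (hasDerivAt_exp s)
  have d2 : HasDerivAt (fun s => 1 - exp s ^ p) (-(p * exp (p * s))) s := by
    have := (((hasDerivAt_id s).const_mul (p : ℂ)).cexp).const_sub 1
    simp only [cb_pow]
    exact this.congr_deriv (by simp [mul_comm])
  have d3 := d2.cpow_const (c := 1 / 2) h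
  have d4 := (W_der p t hy).comp s d3
  refine (d1.add d4).congr_deriv ?_
  rw [he, cpow_def_of_ne_zero (exp_ne_zero _), hl]
  have e1 : exp s ^ (t - 1) * exp s = exp (t * s) := by
    rw [← pow_succ, Nat.sub_add_cancel (Nat.pos_of_ne_zero ht), cb_pow]
  have e2 : exp (p * s * ((t : ℂ) / p - 1)) * exp (p * s) = exp (t * s) := by
    rw [← exp_add]; congr 1; field_simp; ring
  have e3 : (1 / 2 - 1 : ℂ) = -(1 / 2) := by norm_num
  rw [e3, iy]
  generalize (1 - exp s ^ p) ^ (-(1 / 2) : ℂ) = J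
  have e4 : (2 / p * (1 / 2) * p : ℂ) = 1 := by field_simp
  linear_combination J * e1 - J * e2 -
    J * exp (p * s * ((t : ℂ) / p - 1)) * exp (p * s) * e4

/-- The function `s ↦ UU (exp s) + WW ((1 - exp s ^ p) ^ (1 / 2))` has derivative zero on the set
of these `s`, which is open and star convex with respect to `-1`
(`IsOpen.is_const_of_deriv_eq_zero`); `log (exp (p * s)) = p * s`. -/
theorem U_br₀ (hp : p ≠ 0) (ht : t ≠ 0) : ∃ c : ℂ, ∀ s : ℂ, |s.im| < Real.pi / p → exp s ∈ Sd p →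
    UU p t (exp s) = c - WW p t ((1 - exp s ^ p) ^ (1 / 2 : ℂ)) := by
  have h0 : (0 : ℝ) < p := Nat.cast_pos.2 (Nat.pos_of_ne_zero hp)
  let S : Set ℂ := {s | |s.im| < Real.pi / p ∧ exp s ∈ Sd p}
  have hO : IsOpen S :=
    (isOpen_lt (continuous_abs.comp continuous_im) continuous_const).inter
      ((sd_open p).preimage continuous_exp)
  have hm : (-1 : ℂ) ∈ S := by
    have : |(-1 : ℂ).im| < Real.pi / p := by simpa only [neg_im, one_im, neg_zero, abs_zero] using div_pos Real.pi_pos h0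
    exact ⟨this, (cb_mem hp this).2 (Or.inl (by simp))⟩
  have hS : StarConvex ℝ (-1 : ℂ) S := by
    rintro s ⟨h1, h2⟩ a b ha hb hab
    have him : (a • (-1 : ℂ) + b • s).im = b * s.im := by simp
    have hre : (a • (-1 : ℂ) + b • s).re = -a + b * s.re := by simp
    have h3 : |(a • (-1 : ℂ) + b • s).im| < Real.pi / p := by
      rw [him, abs_mul, abs_of_nonneg hb]
      exact lt_of_le_of_lt (mul_le_of_le_one_left (abs_nonneg _) (by linarith)) h1
    refine ⟨h3, (cb_mem hp h3).2 ?_⟩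
    rw [him, hre]
    rcases hb.eq_or_lt with hb0 | hb0
    · left; rw [← hb0] at hab ⊢; linarith only [hab]
    · rcases (cb_mem hp h1).1 h2 with h4 | h4
      · left; nlinarith only [ha, hb0, h4]
      · exact Or.inr (mul_ne_zero hb0.ne' h4)
  have hc : IsPreconnected S := (hS.isPathConnected hm).isConnected.isPreconnected
  refine ⟨UU p t (exp (-1)) + WW p t ((1 - exp (-1) ^ p) ^ (1 / 2 : ℂ)), fun s h1 h2 => ?_⟩
  have := hO.is_const_of_deriv_eq_zero (𝕜 := ℂ)
    (f := fun s => UU p t (exp s) + WW p t ((1 - exp s ^ p) ^ (1 / 2 : ℂ))) hc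
    (fun s hs => (cb_der hp ht hs.1 hs.2).differentiableAt.differentiableWithinAt)
    (fun s hs => (cb_der hp ht hs.1 hs.2).deriv) (⟨h1, h2⟩ : s ∈ S) hm
  exact eq_sub_of_add_eq this

theorem cb_sqrt (p t : ℕ) : Tendsto (fun v : ℂ => WW p t (v ^ (1 / 2 : ℂ))) (𝓝 0) (𝓝 0) := by
  have h1 : ContinuousAt (fun v : ℂ => v ^ (1 / 2 : ℂ)) 0 :=
    continuousAt_cpow_const_of_re_pos (Or.inl le_rfl) (by norm_num)
  have h2 : (0 : ℂ) ^ (1 / 2 : ℂ) = 0 := zero_cpow (by norm_num)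
  have h3 : ContinuousAt (WW p t) 0 :=
    (W_der p t (sd_ball two_ne_zero (by simp))).continuousAt
  have h4 : WW p t 0 = 0 := prim_zero _
  have h5 := h3.tendsto
  rw [h4] at h5
  have h6 := h1.tendsto
  rw [h2] at h6
  exact h5.comp h6

theorem cb_real (hp : p ≠ 0) {r : ℝ} (hr : r < 0) :
    |(r : ℂ).im| < Real.pi / p ∧ exp (r : ℂ) ∈ Sd p := by
  have h0 : (0 : ℝ) < p := Nat.cast_pos.2 (Nat.pos_of_ne_zero hp)
  have : |(r : ℂ).im| < Real.pi / p := by simpa only [ofReal_im, abs_zero] using div_pos Real.pi_pos h0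
  exact ⟨this, (cb_mem hp this).2 (Or.inl (by simpa using hr))⟩

/-- `intervalIntegral.integral_eq_sub_of_hasDerivAt_of_tendsto` for
`w ↦ UU (exp (Real.log w / p))` on `(0, 1)`, `betaIntegral_convergent`; the limit at `1` is the
constant of `U_br₀`. -/
theorem U_br (hp : p ≠ 0) (ht : t ≠ 0) (hs : |s.im| < Real.pi / p) (h : exp s ∈ Sd p) :
    UU p t (exp s) = BB p t - WW p t ((1 - exp s ^ p) ^ (1 / 2 : ℂ)) := by
  obtain ⟨c, hc⟩ := U_br₀ hp ht
  rw [hc s hs h]
  congr 1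
  have h0 : (0 : ℝ) < p := Nat.cast_pos.2 (Nat.pos_of_ne_zero hp)
  have ht0 : (0 : ℝ) < t := Nat.cast_pos.2 (Nat.pos_of_ne_zero ht)
  have hp' : (p : ℂ) ≠ 0 := Nat.cast_ne_zero.2 hp
  have hneg : ∀ w ∈ Set.Ioo (0 : ℝ) 1, Real.log w / p < 0 := fun w hw =>
    div_neg_of_neg_of_pos (Real.log_neg hw.1 hw.2) h0
  have hpow : ∀ w ∈ Set.Ioo (0 : ℝ) 1, exp ((Real.log w / p : ℝ) : ℂ) ^ p = w := fun w hw => by
    rw [cb_pow, ← ofReal_natCast, ← ofReal_mul, mul_div_cancel₀ _ h0.ne', ← ofReal_exp,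
      Real.exp_log hw.1]
  have key := intervalIntegral.integral_eq_sub_of_hasDerivAt_of_tendsto (a := 0) (b := 1)
    (f := fun w : ℝ => UU p t (exp ((Real.log w / p : ℝ) : ℂ)))
    (f' := fun w : ℝ => (w : ℂ) ^ ((t : ℂ) / p - 1) * (1 - (w : ℂ)) ^ ((1 / 2 : ℂ) - 1) / p)
    (fa := 0) (fb := c) zero_lt_one ?_ ?_ ?_ ?_
  · rw [intervalIntegral.integral_div, sub_zero] at key
    exact key.symm
  · intro w hw
    have hw0 : (w : ℂ) ≠ 0 := ofReal_ne_zero.2 hw.1.ne'
    have d1 : HasDerivAt (fun w : ℝ => ((Real.log w / p : ℝ) : ℂ)) ((w⁻¹ / p : ℝ) : ℂ) w :=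
      ((Real.hasDerivAt_log hw.1.ne').div_const (p : ℝ)).ofReal_comp
    have d2 := ((U_der hp t (cb_real hp (hneg w hw)).2).comp _ (hasDerivAt_exp _)).scomp w d1
    refine d2.congr_deriv ?_
    have e1 : exp ((Real.log w / p : ℝ) : ℂ) ^ (t - 1) * exp ((Real.log w / p : ℝ) : ℂ) =
        (w : ℂ) ^ ((t : ℂ) / p) := by
      rw [← pow_succ, Nat.sub_add_cancel (Nat.pos_of_ne_zero ht), cb_pow,
        cpow_def_of_ne_zero hw0, ← ofReal_log hw.1.le]
      congr 1
      push_cast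
      ring
    have e3 : (1 / 2 - 1 : ℂ) = -(1 / 2) := by norm_num
    rw [iy, hpow w hw, e3, cpow_sub _ _ hw0, cpow_one, ← e1, smul_eq_mul]
    push_cast
    field_simp
  · refine (betaIntegral_convergent ?_ (by norm_num)).div_const _
    rw [← ofReal_natCast, ← ofReal_natCast, ← ofReal_div, ofReal_re]
    exact div_pos ht0 h0
  · have h3 : ContinuousAt (UU p t) 0 := (U_der hp t (sd_ball hp (by simp))).continuousAt
    have h4 : UU p t 0 = 0 := prim_zero _
    have h5 := h3.tendsto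
    rw [h4] at h5
    refine h5.comp ?_
    have h6 : Tendsto (fun w : ℝ => Real.exp (Real.log w / p)) (𝓝[>] 0) (𝓝 0) :=
      Real.tendsto_exp_atBot.comp (Real.tendsto_log_nhdsGT_zero.atBot_div_const h0)
    have h7 := (continuous_ofReal.tendsto 0).comp h6
    simp only [ofReal_zero] at h7
    refine h7.congr fun w => ?_
    simp only [Function.comp, ofReal_exp]
  · have h6 : Tendsto (fun w : ℝ => 1 - (w : ℂ)) (𝓝[<] 1) (𝓝 0) := by
      have : Continuous fun w : ℝ => 1 - (w : ℂ) := by fun_prop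
      have := this.tendsto 1
      simp only [ofReal_one, sub_self] at this
      exact this.mono_left nhdsWithin_le_nhds
    have h7 := ((cb_sqrt p t).comp h6).const_sub c
    rw [sub_zero] at h7
    refine h7.congr' ?_
    filter_upwards [Ioo_mem_nhdsLT zero_lt_one] with w hw
    rw [hc _ (cb_real hp (hneg w hw)).1 (cb_real hp (hneg w hw)).2, hpow w hw]
    rfl

theorem U_lim (hp : p ≠ 0) (ht : t ≠ 0) :
    Tendsto (fun r : ℝ => UU p t r) (𝓝[<] 1) (𝓝 (BB p t)) := by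
  have h6 : Tendsto (fun w : ℝ => 1 - (w : ℂ) ^ p) (𝓝[<] 1) (𝓝 0) := by
    have : Continuous fun w : ℝ => 1 - (w : ℂ) ^ p := by fun_prop
    have := this.tendsto 1
    simp only [ofReal_one, one_pow, sub_self] at this
    exact this.mono_left nhdsWithin_le_nhds
  have h7 := ((cb_sqrt p t).comp h6).const_sub (BB p t)
  rw [sub_zero] at h7
  refine h7.congr' ?_
  filter_upwards [Ioo_mem_nhdsLT zero_lt_one] with w hw
  have h1 := cb_real hp (Real.log_neg hw.1 hw.2)
  have h2 := U_br hp ht h1.1 h1.2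
  rw [← ofReal_exp, Real.exp_log hw.1] at h2
  rw [h2]
  rfl

/-! ### Block CC -/

theorem cc_mem (hp : p ≠ 0) (h1 : 0 < s.im) (h2 : s.im < 2 * Real.pi / p) : exp s ∈ Sd p := by
  have hp' : (0 : ℝ) < p := Nat.cast_pos.2 (Nat.pos_of_ne_zero hp)
  by_contra h
  simp only [Sd, Set.mem_ofPred_eq, mem_slitPlane_iff, ← exp_nat_mul, sub_re, sub_im, exp_re, exp_im,
    one_re, one_im, not_or, not_lt, not_not, zero_sub, neg_eq_zero, mul_eq_zero,
    (Real.exp_pos _).ne', false_or, mul_im, natCast_re, natCast_im, zero_mul, add_zero] at h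
  rw [lt_div_iff₀' hp'] at h2
  have h3 := mul_pos hp' h1
  rcases Real.sin_eq_zero_iff_cos_eq.1 h.2 with e | e
  · exact h3.ne' ((Real.cos_eq_one_iff_of_lt_of_lt (by linarith [Real.pi_pos]) h2).1 e)
  · rw [e] at h
    linarith [h.1, Real.exp_pos ((p : ℂ) * s).re]

theorem cc_sq (hx : x ∈ Sd p) : iy p x ^ 2 * (1 - x ^ p) = 1 := by
  rw [iy, ← cpow_nat_mul, show ((2 : ℕ) : ℂ) * -(1 / 2) = -1 by norm_num, cpow_neg_one,
    inv_mul_cancel₀ (slitPlane_ne_zero hx)]

/-- The half strip. -/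
def ccO (p : ℕ) : Set ℂ := {s | 0 < s.re} ∩ ({s | 0 < s.im} ∩ {s | s.im < 2 * Real.pi / p})

theorem cc_conn : IsPreconnected (ccO p) := ((convex_halfSpace_re_gt 0).inter
  ((convex_halfSpace_im_gt 0).inter (convex_halfSpace_im_lt _))).isPreconnected

theorem cc_half (hp : p ≠ 0) (hs : s ∈ ccO p) : exp (-s / 2) ∈ Sd (2 * p) :=
  sd_ball (by omega) (by
    have : 0 < s.re := hs.1
    rw [norm_exp, Real.exp_lt_one_iff]
    simp only [div_ofNat_re, neg_re]
    linarith)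

theorem cc_der (s : ℂ) : HasDerivAt (fun s : ℂ => exp (-s / 2)) (exp (-s / 2) * (-1 / 2)) s :=
  ((hasDerivAt_neg s).div_const 2).cexp

theorem cc_one (s : ℂ) : exp (-s / 2) ^ 2 * exp s = 1 := by
  rw [← exp_nat_mul, ← exp_add, show ((2 : ℕ) : ℂ) * (-s / 2) + s = 0 by push_cast; ring, exp_zero]

theorem cc_sign (hp : p ≠ 0) : ∃ ε : ℂ, ‖ε‖ = 1 ∧ ∀ s ∈ ccO p,
    iy p (exp s) = ε * (exp (-s / 2) ^ p * iy (2 * p) (exp (-s / 2))) := by
  have hsq : ∀ s ∈ ccO p, (I * (exp (-s / 2) ^ p * iy (2 * p) (exp (-s / 2)))) ^ 2 *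
      (1 - exp s ^ p) = 1 := fun s hs => by
    have k1 := cc_sq (cc_half hp hs)
    have k2 : exp (-s / 2) ^ (2 * p) * exp s ^ p = 1 := by
      rw [pow_mul, ← mul_pow, cc_one, one_pow]
    rw [mul_pow, mul_pow, I_sq, ← pow_mul, mul_comm p 2]
    linear_combination k1 + iy (2 * p) (exp (-s / 2)) ^ 2 * k2
  have c1 : ContinuousOn (fun s => iy p (exp s)) (ccO p) := fun s hs =>
    ((iy_der (cc_mem hp hs.2.1 hs.2.2)).continuousAt.comp
      continuous_exp.continuousAt).continuousWithinAt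
  have c2 : ContinuousOn (fun s => I * (exp (-s / 2) ^ p * iy (2 * p) (exp (-s / 2)))) (ccO p) :=
    continuousOn_const.mul (ContinuousOn.mul (by fun_prop) fun s hs =>
      (ContinuousAt.comp (f := fun s : ℂ => exp (-s / 2)) (iy_der (cc_half hp hs)).continuousAt
        (cc_der s).continuousAt).continuousWithinAt)
  rcases cc_conn.eq_or_eq_neg_of_sq_eq c1 c2
    (fun s hs => mul_right_cancel₀ (slitPlane_ne_zero (cc_mem hp hs.2.1 hs.2.2))
      ((cc_sq (cc_mem hp hs.2.1 hs.2.2)).trans (hsq s hs).symm))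
    (fun {s} hs e => by simpa [e] using hsq s hs) with h | h
  · exact ⟨I, norm_I, h⟩
  · exact ⟨-I, by simp, fun s hs => (h hs).trans (neg_mul _ _).symm⟩

/-- On the convex set `0 < re s`, `0 < im s < 2 π / p` one has `exp s ∈ Sd p` and
`iy p (exp s) = ε * I * exp (-(p / 2) * s) * iy (2 * p) (exp (-s / 2))` with a constant sign
(`IsPreconnected.eq_or_eq_neg_of_sq_eq`), so `UU p t (exp s)` and
`-2 * ε * I * UU (2 * p) (p - 2 * t) (exp (-s / 2))` differ by a constant. -/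
theorem U_inf (ht : t ≠ 0) (htp : 2 * t < p) : ∃ L : ℂ, ∀ ε > 0, ∃ R : ℝ, ∀ s : ℂ, R < s.re →
    0 < s.im → s.im < 2 * Real.pi / p → ‖UU p t (exp s) - L‖ < ε := by
  have hp : p ≠ 0 := by omega
  have hp2 : 2 * p ≠ 0 := by omega
  have ho : IsOpen (ccO p) := (isOpen_lt continuous_const continuous_re).inter
    ((isOpen_lt continuous_const continuous_im).inter (isOpen_lt continuous_im continuous_const))
  obtain ⟨ε, hε, h5⟩ := cc_sign hp
  have h6 : ∀ s ∈ ccO p, HasDerivAt (fun s => UU p t (exp s) +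
      2 * ε * UU (2 * p) (p - 2 * t) (exp (-s / 2))) 0 s := fun s hs => by
    have d1 := (U_der hp t (cc_mem hp hs.2.1 hs.2.2)).comp s (hasDerivAt_exp s)
    have d2 := HasDerivAt.comp (h := fun s : ℂ => exp (-s / 2)) s
      (U_der hp2 (p - 2 * t) (cc_half hp hs)) (cc_der s)
    refine (d1.fun_add (d2.const_mul (2 * ε))).congr_deriv ?_
    obtain ⟨n, hn⟩ := Nat.exists_eq_add_one_of_ne_zero ht
    obtain ⟨m, hm⟩ := Nat.exists_eq_add_of_lt htp
    have k : (exp (-s / 2) ^ 2 * exp s) ^ (n + 1) = 1 := by rw [cc_one, one_pow]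
    rw [h5 s hs, show p - 2 * t - 1 = m by omega, show t - 1 = n by omega]
    generalize iy (2 * p) (exp (-s / 2)) = y
    rw [hm, hn]
    linear_combination ε * exp (-s / 2) ^ (m + 1) * y * k
  obtain ⟨L, hL⟩ := ho.exists_is_const_of_deriv_eq_zero cc_conn
    (fun s hs => (h6 s hs).differentiableAt.differentiableWithinAt) fun s hs => (h6 s hs).deriv
  refine ⟨L, fun η hη => ?_⟩
  obtain ⟨δ, hδ, h7⟩ := Metric.continuousAt_iff.1
    (U_der hp2 (p - 2 * t) (sd_ball (x := 0) hp2 (by simp))).continuousAt _ (half_pos hη)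
  refine ⟨max 0 (-2 * Real.log δ), fun s k1 k2 k3 => ?_⟩
  rw [max_lt_iff] at k1
  have k4 := h7 (x := exp (-s / 2)) (by
    rw [dist_zero_right, norm_exp, ← Real.lt_log_iff_exp_lt hδ]
    simp only [div_ofNat_re, neg_re]
    linarith only [k1.2])
  rw [show UU (2 * p) (p - 2 * t) 0 = 0 from prim_zero _, dist_zero_right] at k4
  rw [← hL s ⟨k1.1, k2, k3⟩, sub_add_cancel_left, norm_neg, norm_mul, norm_mul, hε,
    Complex.norm_two]
  linarith only [k4]

theorem polar (hp : p ≠ 0) (hx : x ∈ Sd p) (h1 : 1 < ‖x‖) : ∃ k < p, ∃ s : ℂ,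
    x = ze p ^ k * exp s ∧ s.re = Real.log ‖x‖ ∧ 0 < s.im ∧ s.im < 2 * Real.pi / p := by
  have : NeZero p := ⟨hp⟩
  have hp' : (0 : ℝ) < p := Nat.cast_pos.2 (Nat.pos_of_ne_zero hp)
  have h0 : x ≠ 0 := norm_pos_iff.1 (one_pos.trans h1)
  have h2 : exp ((log (-x ^ p) + Real.pi * I) / p) ^ p = x ^ p := by
    rw [← exp_nat_mul, mul_div_cancel₀ _ (Nat.cast_ne_zero.2 hp), exp_add, exp_pi_mul_I,
      exp_log (neg_ne_zero.2 (pow_ne_zero p h0)), neg_mul_neg, mul_one]
  obtain ⟨k, hk, e⟩ := (isPrimitiveRoot_exp p hp).eq_pow_of_pow_eq_one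
    (ξ := x / exp ((log (-x ^ p) + Real.pi * I) / p))
    (by rw [div_pow, h2, div_self (pow_ne_zero p h0)])
  have h3 : arg (-x ^ p) < Real.pi := arg_lt_pi_iff.2 (by
    by_contra h
    simp only [not_or, not_le, not_not, neg_re, neg_im, neg_eq_zero, neg_lt_zero] at h
    have h4 := one_lt_pow₀ h1 hp
    rw [← norm_pow, ← abs_re_eq_norm.2 h.2, abs_of_pos h.1] at h4
    rcases mem_slitPlane_iff.1 hx with h5 | h5
    · rw [sub_re, one_re] at h5
      linarith only [h4, h5]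
    · simp [h.2] at h5)
  refine ⟨k, hk, _, by rw [ze, e, div_mul_cancel₀ _ (exp_ne_zero _)], ?_, ?_, ?_⟩
  · simp [log_re, hp]
  · simp only [div_natCast_im, add_im, log_im, im_ofReal_mul, I_im, mul_one]
    exact div_pos (by linarith only [neg_pi_lt_arg (-x ^ p)]) hp'
  · simp only [div_natCast_im, add_im, log_im, im_ofReal_mul, I_im, mul_one]
    exact div_lt_div_of_pos_right (by linarith only [h3]) hp'

/-- `x ^ p` is a real number `≥ 1`; `IsPrimitiveRoot.eq_pow_of_pow_eq_one`. -/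
theorem ray (hp : p ≠ 0) (hx : x ∉ Sd p) : ∃ k < p, ∃ r : ℝ, 1 ≤ r ∧ x = ze p ^ k * r := by
  have : NeZero p := ⟨hp⟩
  simp only [Sd, Set.mem_ofPred_eq, mem_slitPlane_iff, sub_re, sub_im, one_re, one_im, not_or,
    not_lt, not_not, zero_sub, neg_eq_zero, sub_nonpos] at hx
  have h1 : ‖x‖ ^ p = (x ^ p).re := by
    rw [← norm_pow, ← abs_re_eq_norm.2 hx.2, abs_of_pos (one_pos.trans_le hx.1)]
  have h2 : 1 ≤ ‖x‖ := (one_le_pow_iff_of_nonneg (norm_nonneg x) hp).1 (h1 ▸ hx.1)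
  have h3 : (‖x‖ : ℂ) ≠ 0 := ofReal_ne_zero.2 (one_pos.trans_le h2).ne'
  obtain ⟨k, hk, e⟩ := (isPrimitiveRoot_exp p hp).eq_pow_of_pow_eq_one (ξ := x / ‖x‖) (by
    rw [div_pow, div_eq_one_iff_eq (pow_ne_zero p h3), ← ofReal_pow, h1]
    exact Complex.ext rfl hx.2)
  exact ⟨k, hk, _, h2, by rw [ze, e, div_mul_cancel₀ _ h3]⟩

/-! ### Block RAT -/

theorem rat_ne {S : Set ℂ} (hS : Dense S) (a : ℂ) : (𝓝[S \ {a}] a).NeBot :=
  mem_closure_iff_nhdsWithin_neBot.1 (hS.sdiff_singleton a a)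

theorem rat_tend {S : Set ℂ} {f g : ℂ → ℂ} {a c : ℂ} (h : ∀ᶠ x in 𝓝[≠] a, x ∈ S → f x = g x)
    (hg : Tendsto g (𝓝[≠] a) (𝓝 c)) : Tendsto f (𝓝[S \ {a}] a) (𝓝 c) := by
  have hle : 𝓝[S \ {a}] a ≤ 𝓝[≠] a := nhdsWithin_mono _ fun x hx => hx.2
  refine (hg.mono_left hle).congr' ?_
  filter_upwards [h.filter_mono hle, self_mem_nhdsWithin] with x h1 h2
  exact (h1 h2.1).symm

theorem rat_near {S : Set ℂ} {f g : ℂ → ℂ} {a : ℂ} (hg : MeromorphicAt g a)
    (h : ∀ᶠ x in 𝓝[≠] a, x ∈ S → f x = g x) :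
    ∀ᶠ y in 𝓝[≠] a, Tendsto f (𝓝[S \ {y}] y) (𝓝 (g y)) := by
  filter_upwards [hg.eventually_analyticAt, eventually_eventually_nhdsWithin.2 h,
    self_mem_nhdsWithin] with y h1 h2 h3
  rw [isOpen_compl_singleton.nhdsWithin_eq h3] at h2
  exact rat_tend (h2.filter_mono nhdsWithin_le_nhds)
    (h1.continuousAt.tendsto.mono_left nhdsWithin_le_nhds)

theorem rat_le {S : Set ℂ} (hS : Dense S) {f : ℂ → ℂ} {R C : ℝ}
    (hb : ∀ x ∈ S, R < ‖x‖ → ‖f x‖ ≤ C) {y c : ℂ} (hy : R < ‖y‖)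
    (h : Tendsto f (𝓝[S \ {y}] y) (𝓝 c)) : ‖c‖ ≤ C := by
  have := rat_ne hS y
  refine le_of_tendsto h.norm ?_
  filter_upwards [self_mem_nhdsWithin, mem_nhdsWithin_of_mem_nhds
    ((isOpen_lt continuous_const continuous_norm).mem_nhds hy)] with x h1 h2
  exact hb x h1.1 h2

theorem rat_poly (D : Polynomial ℂ) : ∃ c : ℝ, 0 ≤ c ∧ ∀ z : ℂ,
    ‖D.eval z‖ ≤ c * (1 + ‖z‖) ^ D.natDegree := by
  refine ⟨∑ i ∈ Finset.range (D.natDegree + 1), ‖D.coeff i‖, by positivity, fun z => ?_⟩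
  rw [Polynomial.eval_eq_sum_range, Finset.sum_mul]
  refine (norm_sum_le _ _).trans (Finset.sum_le_sum fun i hi => ?_)
  rw [norm_mul, norm_pow]
  have h0 := norm_nonneg z
  refine mul_le_mul_of_nonneg_left ?_ (norm_nonneg _)
  exact (pow_le_pow_left₀ h0 (by linarith) i).trans
    (pow_le_pow_right₀ (by linarith) (Nat.lt_succ_iff.1 (Finset.mem_range.1 hi)))

/-- Glue the `g` to one function `F` that is meromorphic everywhere (`F a` is the value at `a` of
`toMeromorphicNFAt g a`; two meromorphic germs that agree on `S` agree).  Its poles lie in the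
closed ball of radius `R`, so they are finite in number; `D` is the product of the
`(X - C a) ^ (order of the pole)`, `D * F` extends to an entire function of polynomial growth
(`GPC73.poly_one`). -/
theorem rat_of_loc {S : Set ℂ} (hS : Dense S) {f : ℂ → ℂ}
    (hm : ∀ a, ∃ g, MeromorphicAt g a ∧ ∀ᶠ x in 𝓝[≠] a, x ∈ S → f x = g x) {R C : ℝ}
    (hb : ∀ x ∈ S, R < ‖x‖ → ‖f x‖ ≤ C) : ∃ P D : Polynomial ℂ, ∀ a g, AnalyticAt ℂ g a →
      (∀ᶠ x in 𝓝[≠] a, x ∈ S → f x = g x) → D.eval a ≠ 0 ∧ D.eval a * g a = P.eval a := by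
  classical
  obtain ⟨F, hF⟩ : ∃ F : ℂ → ℂ, ∀ y c, Tendsto f (𝓝[S \ {y}] y) (𝓝 c) → F y = c :=
    ⟨fun y => limUnder (𝓝[S \ {y}] y) f, fun y c h => by
      have := rat_ne hS y
      exact h.limUnder_eq⟩
  have hE : ∀ a g, MeromorphicAt g a → (∀ᶠ x in 𝓝[≠] a, x ∈ S → f x = g x) →
      g =ᶠ[𝓝[≠] a] F := fun a g hg h => (rat_near hg h).mono fun y hy => (hF y _ hy).symm
  have hM : ∀ a, MeromorphicAt F a := fun a => by
    obtain ⟨g, hg, h⟩ := hm a
    exact hg.congr (hE a g hg h)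
  have hA : ∀ a g c, MeromorphicAt g a → (∀ᶠ x in 𝓝[≠] a, x ∈ S → f x = g x) →
      Tendsto g (𝓝[≠] a) (𝓝 c) → F a = c ∧ AnalyticAt ℂ F a := fun a g c hg h hc => by
    have h1 := hF a c (rat_tend h hc)
    refine ⟨h1, (hM a).analyticAt (continuousAt_iff_punctured_nhds.2 ?_)⟩
    rw [h1]
    exact hc.congr' (hE a g hg h)
  have hO : ∀ a, R < ‖a‖ → ‖F a‖ ≤ C ∧ AnalyticAt ℂ F a := fun a ha => by
    obtain ⟨g, hg, h⟩ := hm a
    have h1 : ∀ᶠ y in 𝓝[≠] a, ‖g y‖ ≤ C := by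
      filter_upwards [rat_near hg h, mem_nhdsWithin_of_mem_nhds
        ((isOpen_lt continuous_const continuous_norm).mem_nhds ha)] with y h1 h2
      exact rat_le hS hb h2 h1
    have h2 : 0 ≤ meromorphicOrderAt g a := by
      by_contra h2
      have h3 := tendsto_cobounded_of_meromorphicOrderAt_neg (not_le.1 h2)
      rw [← tendsto_norm_atTop_iff_cobounded] at h3
      obtain ⟨y, h4, h5⟩ := (h1.and (h3.eventually_gt_atTop C)).exists
      exact h5.not_ge h4
    obtain ⟨c, hc⟩ := tendsto_nhds_of_meromorphicOrderAt_nonneg hg h2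
    obtain ⟨h3, h4⟩ := hA a g c hg h hc
    exact ⟨h3 ▸ rat_le hS hb ha (rat_tend h hc), h4⟩
  have hT : {a | ¬ AnalyticAt ℂ F a}.Finite := by
    have h1 := (isCompact_closedBall (0 : ℂ) R).finite_sdiff_of_mem_codiscreteWithin
      (MeromorphicOn.analyticAt_mem_codiscreteWithin (f := F) fun a _ => hM a)
    refine h1.subset fun a ha => ⟨?_, ha⟩
    rw [mem_closedBall_zero_iff]
    by_contra h2
    exact ha (hO a (not_le.1 h2)).2
  choose n hn using hM
  obtain ⟨D, hD⟩ : ∃ D : Polynomial ℂ, ∀ z, D.eval z = ∏ a ∈ hT.toFinset, (z - a) ^ n a :=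
    ⟨∏ a ∈ hT.toFinset, (Polynomial.X - Polynomial.C a) ^ n a, fun z => by
      simp [Polynomial.eval_prod]⟩
  have hH : Differentiable ℂ fun z => D.eval z * F z := fun a => by
    by_cases ha : AnalyticAt ℂ F a
    · exact D.differentiableAt.mul ha.differentiableAt
    · have h1 : (fun z => D.eval z * F z) =
          fun z => (∏ b ∈ hT.toFinset.erase a, (z - b) ^ n b) * ((z - a) ^ n a • F z) := by
        funext z
        rw [hD, ← Finset.prod_erase_mul _ _ (hT.mem_toFinset.2 ha), smul_eq_mul, mul_assoc]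
      rw [h1]
      exact (by fun_prop : DifferentiableAt ℂ
        (fun z : ℂ => ∏ b ∈ hT.toFinset.erase a, (z - b) ^ n b) a).mul (hn a).differentiableAt
  obtain ⟨M, hM⟩ := (isCompact_closedBall (0 : ℂ) R).exists_bound_of_continuousOn
    hH.continuous.continuousOn
  obtain ⟨c, hc0, hc⟩ := rat_poly D
  obtain ⟨P, -, hP⟩ := GPC73.poly_one hH (|M| + c * |C|) D.natDegree fun z => by
    have h1 : 1 ≤ (1 + ‖z‖) ^ D.natDegree := one_le_pow₀ (by linarith [norm_nonneg z])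
    have h2 := abs_nonneg M
    have h3 : 0 ≤ c * |C| := by positivity
    by_cases hz : R < ‖z‖
    · rw [norm_mul]
      have h4 := mul_le_mul (hc z) ((hO z hz).1.trans (le_abs_self C)) (norm_nonneg _)
        (by positivity)
      nlinarith only [h1, h2, h4]
    · have h4 := (hM z (mem_closedBall_zero_iff.2 (not_lt.1 hz))).trans (le_abs_self M)
      nlinarith only [h1, h2, h3, h4]
  refine ⟨P, D, fun a g hg h => ?_⟩
  obtain ⟨h1, h2⟩ := hA a g (g a) hg.meromorphicAt h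
    (hg.continuousAt.tendsto.mono_left nhdsWithin_le_nhds)
  refine ⟨?_, by rw [← h1, hP]⟩
  rw [hD]
  refine Finset.prod_ne_zero_iff.2 fun b hb => pow_ne_zero _ (sub_ne_zero.2 ?_)
  rintro rfl
  exact hT.mem_toFinset.1 hb h2

/-! ### Block EV -/

theorem ev_loc {E : ℂ → ℂ} (hE : ∀ y, E (-y) = E y) {w : ℂ} (hw : w ≠ 0) : ∃ f : ℂ → ℂ,
    AnalyticAt ℂ f w ∧ f w = w ^ (1 / 2 : ℂ) ∧ (fun v => E (v ^ (1 / 2 : ℂ))) = E ∘ f := by
  have sq : ∀ v : ℂ, (v ^ (1 / 2 : ℂ)) ^ 2 = v := fun v => by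
    rw [one_div, cpow_ofNat_inv_pow]
  refine ⟨fun v => w ^ (1 / 2 : ℂ) * (v / w) ^ (1 / 2 : ℂ), analyticAt_const.mul
    (analyticAt_id.div_const.cpow analyticAt_const (by simp [hw])), by simp [hw],
    funext fun v => ?_⟩
  rcases sq_eq_sq_iff_eq_or_eq_neg.1 (show (v ^ (1 / 2 : ℂ)) ^ 2 =
    (w ^ (1 / 2 : ℂ) * (v / w) ^ (1 / 2 : ℂ)) ^ 2 by
      rw [mul_pow, sq, sq, sq, mul_div_cancel₀ _ hw]) with e | e
  · exact congrArg E e
  · exact (congrArg E e).trans (hE _)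

/-- Near `w` the function is `E (y * (v / w) ^ (1 / 2))` with `y ^ 2 = w`. -/
theorem ev_mer {E : ℂ → ℂ} (hE : ∀ y, E (-y) = E y) {w : ℂ} (hw : w ≠ 0)
    (h : ∀ y, y ^ 2 = w → MeromorphicAt E y) :
    MeromorphicAt (fun v => E (v ^ (1 / 2 : ℂ))) w := by
  obtain ⟨f, hf, h0, e⟩ := ev_loc hE hw
  rw [e]
  exact (h (f w) (by rw [h0, one_div, cpow_ofNat_inv_pow])).comp_analyticAt hf

/-- `analyticAt_of_differentiable_on_punctured_nhds_of_continuousAt`. -/
theorem ev_an {E : ℂ → ℂ} (hE : ∀ y, E (-y) = E y) (h : AnalyticAt ℂ E 0) :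
    AnalyticAt ℂ (fun v => E (v ^ (1 / 2 : ℂ))) 0 := by
  have hc : Tendsto (fun v : ℂ => v ^ (1 / 2 : ℂ)) (𝓝 0) (𝓝 0) := by
    simpa [ContinuousAt] using continuousAt_cpow_const_of_re_pos (z := 0) (w := 1 / 2)
      (.inl le_rfl) (by simp)
  refine analyticAt_of_differentiable_on_punctured_nhds_of_continuousAt ?_ ?_
  · filter_upwards [nhdsWithin_le_nhds (hc.eventually h.eventually_analyticAt),
      self_mem_nhdsWithin] with w h1 hw
    obtain ⟨f, hf, h0, e⟩ := ev_loc hE hw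
    rw [e]
    exact (AnalyticAt.comp (h0 ▸ h1) hf).differentiableAt
  · simpa only [ContinuousAt, one_div, ne_eq, inv_eq_zero, OfNat.ofNat_ne_zero, not_false_eq_true, zero_cpow, Function.comp_def] using h.continuousAt.tendsto.comp hc

/-! ### Block MER -/

variable {V ι : Type} [NormedAddCommGroup V] [NormedSpace ℂ V] [Fintype ι]

/-- The Abel-Jacobi map. -/
noncomputable def zz (p : ℕ) (t : ι → ℕ) (c : ι → V) (x : ℂ) : V := ∑ i, UU p (t i) x • c i

/-- Images of the points `k` under a linear map. -/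
noncomputable def pts (p : ℕ) (t : ι → ℕ) (c : ι → V) (L : ι → ℂ) (k : ℕ) : V :=
  ∑ i, (ze p ^ (k * t i) * L i) • c i

theorem mer_rot (hp : p ≠ 0) {t : ι → ℕ} (ht : ∀ i, t i ≠ 0) (c : ι → V) (k : ℕ) (x : ℂ) :
    zz p t c (ze p ^ k * x) = pts p t c (fun i => UU p (t i) x) k := by
  simp only [zz, pts, U_rot hp (ht _)]

theorem mer_an {t : ι → ℕ} (c : ι → V) {F : ι → ℂ → ℂ} (hF : ∀ i, AnalyticAt ℂ (F i) x) (k : ℕ) :
    AnalyticAt ℂ (fun y => pts p t c (fun i => F i y) k) x :=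
  Finset.analyticAt_fun_sum _ fun i _ => (analyticAt_const.mul (hF i)).smul analyticAt_const

theorem mer_br (hp : p ≠ 0) {t : ι → ℕ} (ht : ∀ i, t i ≠ 0) (c : ι → V) (k : ℕ) {r : ℝ}
    (hr : 0 < r) : ∀ᶠ x in 𝓝 (ze p ^ k * r), x ∈ Sd p → zz p t c x =
      -pts p t c (fun i => WW p (t i) ((1 - x ^ p) ^ (1 / 2 : ℂ))) k +
        pts p t c (fun i => BB p (t i)) k := by
  have hz : ze p ^ k ≠ 0 := pow_ne_zero _ (exp_ne_zero _)
  have e : ze p ^ k * r / ze p ^ k = r := mul_div_cancel_left₀ _ hz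
  have hs : (r : ℂ) ∈ slitPlane := ofReal_mem_slitPlane.2 hr
  have hd : ContinuousAt (fun x : ℂ => x / ze p ^ k) (ze p ^ k * r) := by fun_prop
  have h1 : ContinuousAt (fun x : ℂ => |(log (x / ze p ^ k)).im|) (ze p ^ k * r) :=
    continuous_abs.continuousAt.comp
      (continuous_im.continuousAt.comp (hd.clog (by rw [e]; exact hs)))
  have h2 := h1.eventually (gt_mem_nhds (a := Real.pi / p) (by
    simp only [e, log_im, arg_ofReal_of_nonneg hr.le, abs_zero]
    exact div_pos Real.pi_pos (Nat.cast_pos.2 (Nat.pos_of_ne_zero hp))))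
  have h3 := hd.eventually_ne (y := 0) (by simpa only [e] using ofReal_ne_zero.2 hr.ne')
  filter_upwards [h2, h3] with x hx h0 hS
  have ex : ze p ^ k * exp (log (x / ze p ^ k)) = x := by
    rw [exp_log h0, mul_div_cancel₀ _ hz]
  have hS' : exp (log (x / ze p ^ k)) ∈ Sd p := (sd_rot hp k).1 (ex.symm ▸ hS)
  have ep : exp (log (x / ze p ^ k)) ^ p = x ^ p := by
    conv_rhs => rw [← ex, mul_pow, ← pow_mul, mul_comm k, pow_mul, ze_pow hp, one_pow, one_mul]
  rw [← ex, mer_rot hp ht, ex]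
  simp only [pts, U_br hp (ht _) hx hS', ep, mul_sub, sub_smul, Finset.sum_sub_distrib]
  abel

theorem mer_bd (hp : p ≠ 0) {t : ι → ℕ} (ht : ∀ i, t i ≠ 0) {L : ι → ℂ}
    (hL : ∀ i, ∀ ε > 0, ∃ R : ℝ, ∀ s : ℂ, R < s.re → 0 < s.im → s.im < 2 * Real.pi / p →
      ‖UU p (t i) (exp s) - L i‖ < ε) (c : ι → V) {q : V → ℂ}
    (hq : ∀ k < p, ContinuousAt q (pts p t c L k)) :
    ∃ R C : ℝ, ∀ x ∈ Sd p, R < ‖x‖ → ‖q (zz p t c x)‖ ≤ C := by
  let F : Filter ℂ := comap re atTop ⊓ 𝓟 {s | 0 < s.im ∧ s.im < 2 * Real.pi / p}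
  have h1 : ∀ i, Tendsto (fun s => UU p (t i) (exp s)) F (𝓝 (L i)) := fun i => by
    refine Metric.tendsto_nhds.2 fun ε hε => ?_
    obtain ⟨R, hR⟩ := hL i ε hε
    refine eventually_inf_principal.2 ((tendsto_comap.eventually (eventually_gt_atTop R)).mono ?_)
    exact fun s hs h => dist_eq_norm _ (L i) ▸ hR s hs h.1 h.2
  have h2 : ∀ k ∈ Finset.range p, ∀ᶠ s in F, ‖q (pts p t c (fun i => UU p (t i) (exp s)) k)‖ ≤
      ∑ j ∈ Finset.range p, ‖q (pts p t c L j)‖ + 1 := fun k hk => by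
    have : Tendsto (fun s => pts p t c (fun i => UU p (t i) (exp s)) k) F (𝓝 (pts p t c L k)) :=
      tendsto_finsetSum _ fun i _ => ((h1 i).const_mul _).smul_const _
    exact ((hq k (Finset.mem_range.1 hk)).tendsto.comp this).norm.eventually (ge_mem_nhds
      (lt_add_of_le_of_pos (Finset.single_le_sum (f := fun j => ‖q (pts p t c L j)‖)
        (fun _ _ => norm_nonneg _) hk) one_pos))
  obtain ⟨R, hR⟩ := eventually_atTop.1 (eventually_comap.1
    (eventually_inf_principal.1 ((eventually_all_finset _).2 h2)))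
  refine ⟨max 1 (Real.exp R), ∑ j ∈ Finset.range p, ‖q (pts p t c L j)‖ + 1, fun x hx h => ?_⟩
  obtain ⟨k, hk, s, rfl, h3, h4⟩ := polar hp hx ((le_max_left _ _).trans_lt h)
  rw [mer_rot hp ht]
  refine hR s.re ?_ s rfl h4 k (Finset.mem_range.2 hk)
  rw [h3]
  exact (Real.le_log_iff_exp_le (one_pos.trans ((le_max_left _ _).trans_lt h))).2
    ((le_max_right _ _).trans h.le)

/-- `L i` from `U_inf`; `rat_of_loc` for `f x = a (zz x) / b (zz x)` on `Sd p`.  Near a point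
`ze ^ k * r` of a ray (`ray`) `f x = E ((1 - x ^ p) ^ (1 / 2))` on `Sd p`, where
`E y = (a / b) (pts (fun i => WW (t i) y) k)` is even (`U_rot`, `U_br` with
`s = log (x / ze ^ k)`); `ev_mer`, `ev_an`, `MeromorphicAt.comp_analyticAt`.  The bound: `polar`,
continuity of `a / b` at `pts L k`. -/
theorem mer (hp : p ≠ 0) {t : ι → ℕ} (ht : ∀ i, t i ≠ 0 ∧ 2 * t i < p) : ∃ L : ι → ℂ,
    ∀ (c : ι → V) (a b : V → ℂ), AnalyticOnNhd ℂ a Set.univ → AnalyticOnNhd ℂ b Set.univ →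
      (∀ w, a (-w) / b (-w) = a w / b w) →
      (∀ k < p, ∀ w, a (w + pts p t c (fun i => BB p (t i)) k) /
        b (w + pts p t c (fun i => BB p (t i)) k) = a w / b w) →
      b 0 ≠ 0 → (∀ k < p, b (pts p t c L k) ≠ 0) → ∃ P D : Polynomial ℂ,
        (∀ k < p, D.eval (ze p ^ k) ≠ 0 ∧ D.eval (ze p ^ k) * (a 0 / b 0) = P.eval (ze p ^ k)) ∧
          ∀ᶠ x in 𝓝 0, D.eval x * (a (zz p t c x) / b (zz p t c x)) = P.eval x := by
  choose L hL using fun i => U_inf (ht i).1 (ht i).2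
  refine ⟨L, fun c a b ha hb hn hB h0 hk => ?_⟩
  have ht' := fun i => (ht i).1
  have hz : ∀ x ∈ Sd p, AnalyticAt ℂ (zz p t c) x := fun x hx =>
    Finset.analyticAt_fun_sum _ fun i _ => (U_an hp _ x hx).smul analyticAt_const
  let Z : ℕ → ℂ → V := fun k y => pts p t c (fun i => WW p (t i) y) k
  let E : ℕ → ℂ → ℂ := fun k y => a (Z k y) / b (Z k y)
  have Z0 : ∀ k, Z k 0 = 0 := fun k => by simp only [Z, pts, WW, prim_zero, mul_zero, zero_smul, Finset.sum_const_zero]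
  have Za : ∀ k, ∀ y ∈ Sd 2, AnalyticAt ℂ (Z k) y := fun k y hy =>
    mer_an c (fun i => W_an p (t i) y hy) k
  have Ee : ∀ k y, E k (-y) = E k y := fun k y => by
    have : Z k (-y) = -Z k y := by simp only [Z, pts, W_odd, mul_neg, neg_smul, Finset.sum_neg_distrib]
    simp only [E, this, hn]
  have hE : ∀ k < p, ∀ r : ℝ, 0 < r → ∀ᶠ x in 𝓝[≠] (ze p ^ k * r), x ∈ Sd p →
      a (zz p t c x) / b (zz p t c x) = E k ((1 - x ^ p) ^ (1 / 2 : ℂ)) := fun k hk r hr =>
    ((mer_br hp ht' c k hr).filter_mono nhdsWithin_le_nhds).mono fun x hx hS => by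
      rw [hx hS, hB k hk, hn]
  have hP : ∀ x : ℂ, AnalyticAt ℂ (fun x : ℂ => 1 - x ^ p) x := fun x => by fun_prop
  have E0 : ∀ k, ∀ x : ℂ, 1 - x ^ p = 0 →
      AnalyticAt ℂ (fun x => E k ((1 - x ^ p) ^ (1 / 2 : ℂ))) x := fun k x hx => by
    have h2 := Za k 0 (sd_ball two_ne_zero (by simp))
    exact (ev_an (Ee k) (((ha _ trivial).comp h2).div ((hb _ trivial).comp h2)
      (by simpa [Z0] using h0))).comp_of_eq (hP x) hx
  have zp : ∀ k, (ze p ^ k) ^ p = 1 := fun k => by rw [← pow_mul, mul_comm, pow_mul, ze_pow hp, one_pow]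
  obtain ⟨R, C, hC⟩ := mer_bd hp ht' hL c (q := fun w => a w / b w) fun k h =>
    (ha _ trivial).continuousAt.div (hb _ trivial).continuousAt (hk k h)
  obtain ⟨P, D, h⟩ := rat_of_loc (sd_dense hp) (f := fun x => a (zz p t c x) / b (zz p t c x))
    (fun x => by
      by_cases hx : x ∈ Sd p
      · exact ⟨_, ((ha _ trivial).comp (hz x hx)).meromorphicAt.div
          ((hb _ trivial).comp (hz x hx)).meromorphicAt, .of_forall fun _ _ => rfl⟩
      obtain ⟨k, hk, r, hr, rfl⟩ := ray hp hx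
      refine ⟨_, ?_, hE k hk r (one_pos.trans_le hr)⟩
      by_cases hw : 1 - (ze p ^ k * r) ^ p = 0
      · exact (E0 k _ hw).meromorphicAt
      refine MeromorphicAt.comp_analyticAt (g := fun x : ℂ => 1 - x ^ p)
        (ev_mer (Ee k) hw fun y hy => ?_) (hP _)
      have h2 := Za k y (show 1 - y ^ 2 ∈ slitPlane by
        rw [hy, sub_sub_cancel, mul_pow, zp, one_mul, ← ofReal_pow]
        exact ofReal_mem_slitPlane.2 (pow_pos (one_pos.trans_le hr) _))
      exact ((ha _ trivial).comp h2).meromorphicAt.div ((hb _ trivial).comp h2).meromorphicAt) hC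
  refine ⟨P, D, fun k hk => ?_, ?_⟩
  · have h1 := h _ _ (E0 k (ze p ^ k) (by rw [zp, sub_self])) (by simpa only [one_div, ofReal_one, mul_one] using hE k hk 1 one_pos)
    simpa only [zp, sub_self, zero_cpow (one_div_ne_zero two_ne_zero), E, Z0] using h1
  · have s0 : (0 : ℂ) ∈ Sd p := sd_ball hp (by simp)
    have z0 : zz p t c 0 = 0 := by simp only [zz, UU, prim_zero, zero_smul, Finset.sum_const_zero]
    filter_upwards [(sd_open p).mem_nhds s0, ((hb _ trivial).comp (hz 0 s0)).continuousAt.eventually_ne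
      (y := 0) (by simpa [z0] using h0)] with x hx hx'
    exact (h x _ (((ha _ trivial).comp (hz x hx)).div ((hb _ trivial).comp (hz x hx)) hx')
      (.of_forall fun _ _ => rfl)).2

end GPCJ
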